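import Mathlib

set_option autoImplicit false
set_option maxSynthPendingDepth 3

namespace Pool.Agent.P.MP_086137_an

open scoped BigOperators

/-- Bounded approximate contractibility, tested on unital bimodules only. -/
def Hyp (A : Type) [NormedRing A] [NormedAlgebra ℂ A] : Prop :=
  ∀ (X : Type) [NormedAddCommGroup X] [NormedSpace ℂ X] [CompleteSpace X]
    (L R : A →L[ℂ] X →L[ℂ] X), (∀ x, L 1 x = x) → (∀ x, R 1 x = x) →
    (∀ a b : A, L (a * b) = (L a).comp (L b)) →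
    (∀ a b : A, R (a * b) = (R b).comp (R a)) →
    (∀ a b : A, (L a).comp (R b) = (R b).comp (L a)) →
    ∀ D : A →L[ℂ] X, (∀ a b : A, D (a * b) = L a (D b) + R b (D a)) →
      ∃ C : ℝ, ∀ F : Finset A, ∀ ε : ℝ, 0 < ε → ∃ ξ : X,
        (∀ a : A, ‖L a ξ - R a ξ‖ ≤ C * ‖a‖) ∧
          ∀ a ∈ F, ‖D a - (L a ξ - R a ξ)‖ < ε

section Sub

variable {A : Type} [NormedRing A] [NormedAlgebra ℂ A]
variable {V : Type} [NormedAddCommGroup V] [NormedSpace ℂ V]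

/-- Restriction of an action to an invariant subspace. -/
noncomputable def restr (L : A →L[ℂ] V →L[ℂ] V) (X : Submodule ℂ V)
    (hL : ∀ a, ∀ x ∈ X, L a x ∈ X) : A →L[ℂ] X →L[ℂ] X :=
  LinearMap.mkContinuous₂
    (LinearMap.mk₂ ℂ (fun (a : A) (x : X) => (⟨L a x, hL a x x.2⟩ : X))
      (by intro a b x; ext; simp) (by intro c a x; ext; simp)
      (by intro a x y; ext; simp) (by intro c a x; ext; simp))
    ‖L‖ (by intro a x; exact L.le_opNorm₂ a x)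

theorem restr_apply (L : A →L[ℂ] V →L[ℂ] V) (X : Submodule ℂ V)
    (hL : ∀ a, ∀ x ∈ X, L a x ∈ X) (a : A) (x : X) :
    ((restr L X hL a x : X) : V) = L a x := rfl

theorem sub_lemma [CompleteSpace V] (h : Hyp A) (L R : A →L[ℂ] V →L[ℂ] V)
    (hL1 : ∀ x, L 1 x = x) (hR1 : ∀ x, R 1 x = x)
    (hL : ∀ a b : A, L (a * b) = (L a).comp (L b))
    (hR : ∀ a b : A, R (a * b) = (R b).comp (R a))
    (hLR : ∀ a b : A, (L a).comp (R b) = (R b).comp (L a))
    (X : Submodule ℂ V) (hX : IsClosed (X : Set V))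
    (hLX : ∀ a, ∀ x ∈ X, L a x ∈ X) (hRX : ∀ a, ∀ x ∈ X, R a x ∈ X)
    (m : V) (hm : ∀ a, L a m - R a m ∈ X) :
    ∃ C : ℝ, 0 ≤ C ∧ ∀ F : Finset A, ∀ ε : ℝ, 0 < ε → ∃ M : V, m - M ∈ X ∧
      (∀ a : A, ‖L a M - R a M‖ ≤ C * ‖a‖) ∧ ∀ a ∈ F, ‖L a M - R a M‖ < ε := by
  have : CompleteSpace X := hX.completeSpace_coe
  let D0 : A →L[ℂ] V := L.flip m - R.flip m
  have hD0 : ∀ a, D0 a = L a m - R a m := fun a => rfl
  let D : A →L[ℂ] X := D0.codRestrict X hm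
  have hD : ∀ a, (D a : V) = L a m - R a m := fun a => rfl
  obtain ⟨C, hC⟩ := h X (restr L X hLX) (restr R X hRX)
    (by intro x; ext; simp [restr_apply, hL1]) (by intro x; ext; simp [restr_apply, hR1])
    (by intro a b; ext x; simp [restr_apply, hL])
    (by intro a b; ext x; simp [restr_apply, hR])
    (by
      intro a b; ext x
      have := congrArg (fun T : V →L[ℂ] V => T x) (hLR a b)
      simpa [restr_apply] using this)
    D (by
      intro a b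
      ext
      have := congrArg (fun T : V →L[ℂ] V => T m) (hLR a b)
      simp only [ContinuousLinearMap.comp_apply] at this
      simp only [Submodule.coe_add, restr_apply, hD, hL, hR, ContinuousLinearMap.comp_apply,
        map_sub, this]
      abel)
  refine ⟨‖D0‖ + |C|, by positivity, fun F ε hε => ?_⟩
  obtain ⟨ξ, h1, h2⟩ := hC F ε hε
  refine ⟨m - ξ, by simp, fun a => ?_, fun a ha => ?_⟩
  · have e : L a (m - ξ) - R a (m - ξ) = D0 a - (L a ξ - R a ξ) := by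
      rw [hD0, map_sub, map_sub]; abel
    have h3 : ‖L a ξ - R a ξ‖ ≤ C * ‖a‖ := h1 a
    have h4 : C * ‖a‖ ≤ |C| * ‖a‖ := by gcongr; exact le_abs_self C
    rw [e]
    calc ‖D0 a - (L a ξ - R a ξ)‖ ≤ ‖D0 a‖ + ‖L a ξ - R a ξ‖ := norm_sub_le _ _
      _ ≤ ‖D0‖ * ‖a‖ + |C| * ‖a‖ := add_le_add (D0.le_opNorm a) (h3.trans h4)
      _ = (‖D0‖ + |C|) * ‖a‖ := by ring
  · have e : L a (m - ξ) - R a (m - ξ) = D0 a - (L a ξ - R a ξ) := by
      rw [hD0, map_sub, map_sub]; abel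
    rw [e]
    exact h2 a ha

end Sub

section Forms

variable {A : Type} [NormedRing A] [NormedAlgebra ℂ A]

/-- `lam · a : x ↦ lam (a * x)`. -/
noncomputable def actR : A →L[ℂ] (A →L[ℂ] ℂ) →L[ℂ] (A →L[ℂ] ℂ) :=
  ((ContinuousLinearMap.compL ℂ A A ℂ).flip).comp (ContinuousLinearMap.mul ℂ A)

/-- `a · lam : x ↦ lam (x * a)`. -/
noncomputable def actL : A →L[ℂ] (A →L[ℂ] ℂ) →L[ℂ] (A →L[ℂ] ℂ) :=
  ((ContinuousLinearMap.compL ℂ A A ℂ).flip).comp (ContinuousLinearMap.mul ℂ A).flip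

@[simp] theorem actR_apply (a : A) (l : A →L[ℂ] ℂ) (x : A) : actR a l x = l (a * x) := rfl

@[simp] theorem actL_apply (a : A) (l : A →L[ℂ] ℂ) (x : A) : actL a l x = l (x * a) := rfl

/-- Bounded bilinear forms on the dual. -/
abbrev VV (A : Type) [NormedRing A] [NormedAlgebra ℂ A] : Type :=
  (A →L[ℂ] ℂ) →L[ℂ] (A →L[ℂ] ℂ) →L[ℂ] ℂ

/-- Left action on bilinear forms. -/
noncomputable def LL : A →L[ℂ] VV A →L[ℂ] VV A :=
  ((ContinuousLinearMap.compL ℂ (A →L[ℂ] ℂ) (A →L[ℂ] ℂ) ((A →L[ℂ] ℂ) →L[ℂ] ℂ)).flip).comp actR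

/-- Right action on bilinear forms. -/
noncomputable def RR : A →L[ℂ] VV A →L[ℂ] VV A :=
  (ContinuousLinearMap.compL ℂ (A →L[ℂ] ℂ) ((A →L[ℂ] ℂ) →L[ℂ] ℂ) ((A →L[ℂ] ℂ) →L[ℂ] ℂ)).comp
    (((ContinuousLinearMap.compL ℂ (A →L[ℂ] ℂ) (A →L[ℂ] ℂ) ℂ).flip).comp actL)

@[simp] theorem LL_apply (a : A) (T : VV A) (l m : A →L[ℂ] ℂ) :
    LL a T l m = T (actR a l) m := rfl

@[simp] theorem RR_apply (a : A) (T : VV A) (l m : A →L[ℂ] ℂ) :
    RR a T l m = T l (actL a m) := rfl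

theorem actR_mul (a b : A) (l : A →L[ℂ] ℂ) : actR (a * b) l = actR b (actR a l) := by
  ext x; simp [mul_assoc]

theorem actL_mul (a b : A) (l : A →L[ℂ] ℂ) : actL (a * b) l = actL a (actL b l) := by
  ext x; simp [mul_assoc]

theorem LL_mul (a b : A) : LL (a * b) = (LL a).comp (LL (A := A) b) := by
  ext T l m; simp [actR_mul]

theorem RR_mul (a b : A) : RR (a * b) = (RR b).comp (RR (A := A) a) := by
  ext T l m; simp [actL_mul]

theorem LL_RR (a b : A) : (LL a).comp (RR b) = (RR b).comp (LL (A := A) a) := by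
  ext T l m; simp

theorem LL_one (T : VV A) : LL (1 : A) T = T := by
  ext l m
  have : actR (1 : A) l = l := by ext x; simp
  simp [this]

theorem RR_one (T : VV A) : RR (1 : A) T = T := by
  ext l m
  have : actL (1 : A) m = m := by ext x; simp
  simp [this]

theorem sub_forms (h : Hyp A) (X : Submodule ℂ (VV A)) (hX : IsClosed (X : Set (VV A)))
    (hLX : ∀ a, ∀ x ∈ X, LL a x ∈ X) (hRX : ∀ a, ∀ x ∈ X, RR a x ∈ X)
    (m : VV A) (hm : ∀ a, LL a m - RR a m ∈ X) :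
    ∃ C : ℝ, 0 ≤ C ∧ ∀ F : Finset A, ∀ ε : ℝ, 0 < ε → ∃ M : VV A, m - M ∈ X ∧
      (∀ a : A, ‖LL a M - RR a M‖ ≤ C * ‖a‖) ∧ ∀ a ∈ F, ‖LL a M - RR a M‖ < ε :=
  sub_lemma h LL RR LL_one RR_one LL_mul RR_mul LL_RR X hX hLX hRX m hm

/-- The elementary tensor `x ⊗ y` as a bilinear form. -/
noncomputable def tens (x y : A) : VV A :=
  (ContinuousLinearMap.apply ℂ ℂ x).smulRight (ContinuousLinearMap.apply ℂ ℂ y)

@[simp] theorem tens_apply (x y : A) (l m : A →L[ℂ] ℂ) : tens x y l m = l x * m y := by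
  simp [tens]

end Forms

end Pool.Agent.P.MP_086137_an
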