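import Mathlib
import Pool.Agent.P.MP_086137_an.Basic

set_option autoImplicit false
set_option maxSynthPendingDepth 3

namespace Pool.Agent.P.MP_086137_an

open scoped BigOperators

variable {A : Type} [NormedRing A] [NormedAlgebra ℂ A]

/-- Coordinates on the quotient by a finite-codimensional ideal. -/
structure Frame (J : Submodule ℂ A) (d : ℕ) where
  u : Fin d → A
  lam : Fin d → (A →L[ℂ] ℂ)
  lam_J : ∀ k, ∀ y ∈ J, lam k y = 0
  sub_mem : ∀ a, a - ∑ k, lam k a • u k ∈ J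
  mul_l : ∀ a x : A, x ∈ J → a * x ∈ J
  mul_r : ∀ a x : A, x ∈ J → x * a ∈ J

theorem exists_frame (J : Submodule ℂ A) (hJ : ∀ a x : A, x ∈ J → a * x ∈ J ∧ x * a ∈ J)
    (hc : IsClosed (J : Set A)) (hf : FiniteDimensional ℂ (A ⧸ J)) :
    ∃ d, Nonempty (Frame J d) := by
  let b := Module.finBasis ℂ (A ⧸ J)
  have hq : Continuous J.mkQ := continuous_quot_mk
  refine ⟨Module.finrank ℂ (A ⧸ J), ⟨⟨fun k => (b k).out, fun k =>
    ⟨(b.coord k).comp J.mkQ, (b.coord k).continuous_of_finiteDimensional.comp hq⟩, ?_, ?_,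
    fun a x hx => (hJ a x hx).1, fun a x hx => (hJ a x hx).2⟩⟩⟩
  · intro k y hy
    have : J.mkQ y = 0 := (Submodule.Quotient.mk_eq_zero J).2 hy
    change b.coord k (J.mkQ y) = 0
    rw [this, map_zero]
  · intro a
    rw [← Submodule.Quotient.mk_eq_zero, ← Submodule.mkQ_apply, map_sub, map_sum, sub_eq_zero]
    conv_lhs => rw [← b.sum_repr (J.mkQ a)]
    refine Finset.sum_congr rfl fun k _ => ?_
    rw [map_smul]
    congr 1
    exact (Quotient.out_eq (b k)).symm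

namespace Frame

variable {J : Submodule ℂ A} {d : ℕ} (φ : Frame J d)

theorem mem_iff (y : A) : y ∈ J ↔ ∀ k, φ.lam k y = 0 := by
  refine ⟨fun hy k => φ.lam_J k y hy, fun h => ?_⟩
  simpa [h] using φ.sub_mem y

/-- A linear map vanishing on `J` is determined by its values on the frame. -/
theorem expand {Z : Type} [AddCommGroup Z] [Module ℂ Z] (f : A →ₗ[ℂ] Z)
    (hf : ∀ y ∈ J, f y = 0) (a : A) : f a = ∑ k, φ.lam k a • f (φ.u k) := by
  have := hf _ (φ.sub_mem a)
  rw [map_sub, map_sum, sub_eq_zero] at this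
  simpa using this

theorem dual_expand (ν : A →L[ℂ] ℂ) (hν : ∀ y ∈ J, ν y = 0) :
    ν = ∑ k, ν (φ.u k) • φ.lam k := by
  ext a
  have := φ.expand (ν : A →ₗ[ℂ] ℂ) hν a
  simp only [ContinuousLinearMap.coe_coe, smul_eq_mul] at this
  rw [this]
  simp [mul_comm]

include φ in
theorem actR_J (ν : A →L[ℂ] ℂ) (hν : ∀ y ∈ J, ν y = 0) (a : A) : ∀ y ∈ J, actR a ν y = 0 :=
  fun y hy => hν _ (φ.mul_l a y hy)

include φ in
theorem actL_J (ν : A →L[ℂ] ℂ) (hν : ∀ y ∈ J, ν y = 0) (a : A) : ∀ y ∈ J, actL a ν y = 0 :=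
  fun y hy => hν _ (φ.mul_r a y hy)

include φ in
theorem actR_zero (ν : A →L[ℂ] ℂ) (hν : ∀ y ∈ J, ν y = 0) (y : A) (hy : y ∈ J) :
    actR y ν = 0 := by
  ext x; exact hν _ (φ.mul_r x y hy)

include φ in
theorem actL_zero (ν : A →L[ℂ] ℂ) (hν : ∀ y ∈ J, ν y = 0) (y : A) (hy : y ∈ J) :
    actL y ν = 0 := by
  ext x; exact hν _ (φ.mul_l x y hy)

/-- The product map, modulo `J`. -/
noncomputable def prod : VV A →L[ℂ] A :=
  ∑ k, ∑ l, ((ContinuousLinearMap.apply ℂ ℂ (φ.lam l)).comp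
    (ContinuousLinearMap.apply ℂ ((A →L[ℂ] ℂ) →L[ℂ] ℂ) (φ.lam k))).smulRight (φ.u k * φ.u l)

theorem prod_apply (T : VV A) :
    φ.prod T = ∑ k, ∑ l, T (φ.lam k) (φ.lam l) • (φ.u k * φ.u l) := by
  simp [prod]

theorem prod_LL (a : A) (T : VV A) : φ.prod (LL a T) - a * φ.prod T ∈ J := by
  rw [φ.mem_iff]
  intro j
  rw [map_sub, sub_eq_zero, prod_apply, prod_apply]
  simp only [LL_apply, Finset.mul_sum, map_sum, map_smul, mul_smul_comm, smul_eq_mul]
  have h1 : ∀ k l, T (actR a (φ.lam k)) (φ.lam l)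
      = ∑ p, φ.lam k (a * φ.u p) * T (φ.lam p) (φ.lam l) := by
    intro k l
    conv_lhs => rw [φ.dual_expand _ (φ.actR_J (φ.lam k) (φ.lam_J k) a)]
    simp
  have h2 : ∀ p l, φ.lam j (a * (φ.u p * φ.u l))
      = ∑ k, φ.lam k (a * φ.u p) * φ.lam j (φ.u k * φ.u l) := by
    intro p l
    have := φ.expand ((actL (φ.u l) (φ.lam j) : A →L[ℂ] ℂ) : A →ₗ[ℂ] ℂ)
      (φ.actL_J _ (φ.lam_J j) _) (a * φ.u p)
    simpa [mul_assoc] using this
  simp only [h1, h2, Finset.sum_mul, Finset.mul_sum]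
  rw [Finset.sum_comm]
  conv_rhs => rw [Finset.sum_comm]
  refine Finset.sum_congr rfl fun l _ => ?_
  rw [Finset.sum_comm]
  refine Finset.sum_congr rfl fun p _ => Finset.sum_congr rfl fun k _ => by ring

theorem prod_RR (a : A) (T : VV A) : φ.prod (RR a T) - φ.prod T * a ∈ J := by
  rw [φ.mem_iff]
  intro j
  rw [map_sub, sub_eq_zero, prod_apply, prod_apply]
  simp only [RR_apply, Finset.sum_mul, map_sum, map_smul, smul_mul_assoc, smul_eq_mul]
  have h1 : ∀ k l, T (φ.lam k) (actL a (φ.lam l))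
      = ∑ p, φ.lam l (φ.u p * a) * T (φ.lam k) (φ.lam p) := by
    intro k l
    conv_lhs => rw [φ.dual_expand _ (φ.actL_J (φ.lam l) (φ.lam_J l) a)]
    simp
  have h2 : ∀ k p, φ.lam j (φ.u k * φ.u p * a)
      = ∑ l, φ.lam l (φ.u p * a) * φ.lam j (φ.u k * φ.u l) := by
    intro k p
    have := φ.expand ((actR (φ.u k) (φ.lam j) : A →L[ℂ] ℂ) : A →ₗ[ℂ] ℂ)
      (φ.actR_J _ (φ.lam_J j) _) (φ.u p * a)
    simpa [mul_assoc] using this
  simp only [h1, h2, Finset.sum_mul, Finset.mul_sum]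
  refine Finset.sum_congr rfl fun k _ => ?_
  rw [Finset.sum_comm]
  refine Finset.sum_congr rfl fun p _ => Finset.sum_congr rfl fun l _ => by ring

theorem prod_one : φ.prod (tens (1 : A) 1) - 1 ∈ J := by
  have h := φ.sub_mem 1
  set e := ∑ k, φ.lam k 1 • φ.u k with he
  have h1 : φ.prod (tens (1 : A) 1) = e * e := by
    rw [prod_apply, he, Finset.sum_mul_sum]
    simp only [tens_apply, smul_mul_smul_comm]
  have h2 : e * e - 1 = -(e * (1 - e)) - (1 - e) := by noncomm_ring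
  rw [h1, h2]
  exact J.sub_mem (J.neg_mem (φ.mul_l _ _ h)) h

/-- An exact diagonal of the quotient algebra. -/
theorem exists_diag (h : Hyp A) (hc : IsClosed (J : Set A)) :
    ∃ T : VV A, φ.prod T - 1 ∈ J ∧
      ∀ (a : A) (k l : Fin d), T (actR a (φ.lam k)) (φ.lam l) = T (φ.lam k) (actL a (φ.lam l)) := by
  classical
  let X : Submodule ℂ (VV A) := J.comap (φ.prod : VV A →ₗ[ℂ] A)
  have hX : IsClosed (X : Set (VV A)) := hc.preimage φ.prod.continuous
  have memX : ∀ T, T ∈ X ↔ φ.prod T ∈ J := fun T => Iff.rfl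
  obtain ⟨C, -, hC⟩ := sub_forms h X hX
    (by
      intro a x hx
      rw [memX] at hx ⊢
      have := J.add_mem (φ.prod_LL a x) (φ.mul_l a _ hx)
      simpa using this)
    (by
      intro a x hx
      rw [memX] at hx ⊢
      have := J.add_mem (φ.prod_RR a x) (φ.mul_r a _ hx)
      simpa using this)
    (tens 1 1)
    (by
      intro a
      rw [memX, map_sub]
      have h1 := φ.prod_LL a (tens 1 1)
      have h2 := φ.prod_RR a (tens 1 1)
      have h3 := φ.mul_l a _ φ.prod_one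
      have h4 := φ.mul_r a _ φ.prod_one
      have := J.sub_mem (J.add_mem h1 h3) (J.add_mem h2 h4)
      convert this using 1
      noncomm_ring)
  let Ψ : VV A →ₗ[ℂ] (Fin d → Fin d → Fin d → ℂ) :=
    { toFun := fun T p k l => (LL (φ.u p) T - RR (φ.u p) T) (φ.lam k) (φ.lam l)
      map_add' := by intro T S; ext p k l; simp; ring
      map_smul' := by intro c T; ext p k l; simp; ring }
  have hΨ : ∀ T p k l, Ψ T p k l = (LL (φ.u p) T - RR (φ.u p) T) (φ.lam k) (φ.lam l) :=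
    fun _ _ _ _ => rfl
  have hcl : IsClosed ((X.map Ψ : Submodule ℂ _) : Set (Fin d → Fin d → Fin d → ℂ)) :=
    Submodule.closed_of_finiteDimensional _
  have hmem : Ψ (tens 1 1) ∈ X.map Ψ := by
    rw [← SetLike.mem_coe, ← hcl.closure_eq, Metric.mem_closure_iff]
    intro ε hε
    set κ : ℝ := ∑ k, ‖φ.lam k‖ + 1 with hκ
    have hκ0 : 0 < κ := by positivity
    have hκk : ∀ k, ‖φ.lam k‖ ≤ κ := by
      intro k
      have := Finset.single_le_sum (f := fun k => ‖φ.lam k‖) (fun k _ => norm_nonneg _)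
        (Finset.mem_univ k)
      linarith
    obtain ⟨M, hM1, -, hM3⟩ := hC (Finset.univ.image φ.u) (ε / (2 * (κ * κ))) (by positivity)
    refine ⟨Ψ (tens 1 1 - M), Submodule.mem_map_of_mem hM1, ?_⟩
    rw [dist_eq_norm, ← map_sub, sub_sub_cancel]
    have : ‖Ψ M‖ ≤ ε / 2 := by
      refine (pi_norm_le_iff_of_nonneg (by positivity)).2 fun p => ?_
      refine (pi_norm_le_iff_of_nonneg (by positivity)).2 fun k => ?_
      refine (pi_norm_le_iff_of_nonneg (by positivity)).2 fun l => ?_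
      rw [hΨ]
      have h1 := hM3 (φ.u p) (Finset.mem_image_of_mem _ (Finset.mem_univ p))
      calc ‖(LL (φ.u p) M - RR (φ.u p) M) (φ.lam k) (φ.lam l)‖
          ≤ ‖LL (φ.u p) M - RR (φ.u p) M‖ * ‖φ.lam k‖ * ‖φ.lam l‖ :=
            ContinuousLinearMap.le_opNorm₂ _ _ _
        _ ≤ (ε / (2 * (κ * κ))) * κ * κ := by gcongr <;> exact hκk _
        _ = ε / 2 := by field_simp
    linarith
  obtain ⟨ξ, hξ, hξ2⟩ := hmem
  refine ⟨tens 1 1 - ξ, ?_, ?_⟩
  · rw [map_sub]
    have := J.sub_mem φ.prod_one ((memX ξ).1 hξ)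
    convert this using 1
    abel
  · intro a k l
    set T := tens (1 : A) 1 - ξ with hT
    have h0 : Ψ T = 0 := by rw [hT, map_sub, hξ2, sub_self]
    let g : A →ₗ[ℂ] ℂ :=
      { toFun := fun a => T (actR a (φ.lam k)) (φ.lam l) - T (φ.lam k) (actL a (φ.lam l))
        map_add' := by intro a b; simp; ring
        map_smul' := by intro c a; simp; ring }
    have hg : ∀ a, g a = T (actR a (φ.lam k)) (φ.lam l) - T (φ.lam k) (actL a (φ.lam l)) :=
      fun _ => rfl
    have h1 := φ.expand g (by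
      intro y hy
      rw [hg, φ.actR_zero _ (φ.lam_J k) y hy, φ.actL_zero _ (φ.lam_J l) y hy]
      simp) a
    have h2 : ∀ p, g (φ.u p) = 0 := by
      intro p
      have := congrFun (congrFun (congrFun h0 p) k) l
      rw [hΨ] at this
      simpa [hg] using this
    rw [← sub_eq_zero, ← hg, h1]
    simp [h2]

/-- A lifted diagonal `∑ u k ⊗ c k`. -/
theorem exists_c (h : Hyp A) (hc : IsClosed (J : Set A)) :
    ∃ c : Fin d → A, (∑ k, φ.u k * c k) - 1 ∈ J ∧
      ∀ (β : A →ₗ[ℂ] A →ₗ[ℂ] ℂ), (∀ y ∈ J, ∀ x, β y x = 0) → (∀ y ∈ J, ∀ x, β x y = 0) →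
        ∀ a, ∑ k, β (a * φ.u k) (c k) = ∑ k, β (φ.u k) (c k * a) := by
  obtain ⟨T, hT1, hT2⟩ := φ.exists_diag h hc
  refine ⟨fun k => ∑ l, T (φ.lam k) (φ.lam l) • φ.u l, ?_, ?_⟩
  · rw [prod_apply] at hT1
    simpa [Finset.mul_sum] using hT1
  · intro β hβ1 hβ2 a
    have e1 : ∀ k l, β (a * φ.u k) (φ.u l) = ∑ p, φ.lam p (a * φ.u k) * β (φ.u p) (φ.u l) := by
      intro k l
      have := φ.expand (β.flip (φ.u l)) (fun y hy => hβ1 y hy _) (a * φ.u k)
      simpa using this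
    have e2 : ∀ k l, β (φ.u k) (φ.u l * a) = ∑ p, φ.lam p (φ.u l * a) * β (φ.u k) (φ.u p) := by
      intro k l
      have := φ.expand (β (φ.u k)) (fun y hy => hβ2 y hy _) (φ.u l * a)
      simpa using this
    have h1 : ∀ k l, T (actR a (φ.lam k)) (φ.lam l)
        = ∑ p, φ.lam k (a * φ.u p) * T (φ.lam p) (φ.lam l) := by
      intro k l
      conv_lhs => rw [φ.dual_expand _ (φ.actR_J (φ.lam k) (φ.lam_J k) a)]
      simp
    have h2 : ∀ k l, T (φ.lam k) (actL a (φ.lam l))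
        = ∑ p, φ.lam l (φ.u p * a) * T (φ.lam k) (φ.lam p) := by
      intro k l
      conv_lhs => rw [φ.dual_expand _ (φ.actL_J (φ.lam l) (φ.lam_J l) a)]
      simp
    calc ∑ k, β (a * φ.u k) (∑ l, T (φ.lam k) (φ.lam l) • φ.u l)
        = ∑ k, ∑ l, ∑ p, T (φ.lam k) (φ.lam l) * (φ.lam p (a * φ.u k) * β (φ.u p) (φ.u l)) := by
          simp only [map_sum, map_smul, smul_eq_mul, e1, Finset.mul_sum]
      _ = ∑ p, ∑ l, T (actR a (φ.lam p)) (φ.lam l) * β (φ.u p) (φ.u l) := by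
          simp only [h1, Finset.sum_mul]
          rw [Finset.sum_comm]
          conv_rhs => rw [Finset.sum_comm]
          refine Finset.sum_congr rfl fun l _ => ?_
          rw [Finset.sum_comm]
          exact Finset.sum_congr rfl fun p _ => Finset.sum_congr rfl fun k _ => by ring
      _ = ∑ p, ∑ l, T (φ.lam p) (actL a (φ.lam l)) * β (φ.u p) (φ.u l) := by
          simp only [hT2]
      _ = ∑ k, ∑ l, ∑ p, T (φ.lam k) (φ.lam l) * (φ.lam p (φ.u l * a) * β (φ.u k) (φ.u p)) := by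
          simp only [h2, Finset.sum_mul]
          refine Finset.sum_congr rfl fun k _ => ?_
          rw [Finset.sum_comm]
          exact Finset.sum_congr rfl fun p _ => Finset.sum_congr rfl fun l _ => by ring
      _ = ∑ k, β (φ.u k) ((∑ l, T (φ.lam k) (φ.lam l) • φ.u l) * a) := by
          simp only [Finset.sum_mul, smul_mul_assoc, map_sum, map_smul, smul_eq_mul, e2,
            Finset.mul_sum]

end Frame

end Pool.Agent.P.MP_086137_an
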