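import Mathlib
import Pool.Agent.P.MP_086137_an.Diag

set_option autoImplicit false
set_option maxSynthPendingDepth 3

namespace Pool.Agent.P.MP_086137_an

open scoped BigOperators

variable {A : Type} [NormedRing A] [NormedAlgebra ℂ A]
variable {J : Submodule ℂ A} {d : ℕ}

/-- An admissible approximate diagonal. -/
structure Adm (φ : Frame J d) (c : Fin d → A) (C : ℝ) where
  M : VV A
  H : Fin d → A
  H' : Fin d → A
  hH : ∀ k μ, M (φ.lam k) μ = μ (H k)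
  hH' : ∀ k l, M l (φ.lam k) = l (H' k)
  HJ : ∀ k, H k - ∑ p, φ.lam k (φ.u p) • c p ∈ J
  H'J : ∀ k, H' k - ∑ p, φ.lam k (c p) • φ.u p ∈ J
  bdd : ∀ a, ‖LL a M - RR a M‖ ≤ C * ‖a‖

theorem exists_adm [CompleteSpace A] (φ : Frame J d) (h : Hyp A) (hc : IsClosed (J : Set A))
    (c : Fin d → A)
    (hc2 : ∀ (β : A →ₗ[ℂ] A →ₗ[ℂ] ℂ), (∀ y ∈ J, ∀ x, β y x = 0) → (∀ y ∈ J, ∀ x, β x y = 0) →
        ∀ a, ∑ k, β (a * φ.u k) (c k) = ∑ k, β (φ.u k) (c k * a)) :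
    ∃ C : ℝ, 0 ≤ C ∧ ∀ F : Finset A, ∀ ε : ℝ, 0 < ε →
      ∃ m : Adm φ c C, ∀ a ∈ F, ‖LL a m.M - RR a m.M‖ < ε := by
  let ι := NormedSpace.inclusionInDoubleDualLi (E := A) ℂ
  let S : Set ((A →L[ℂ] ℂ) →L[ℂ] ℂ) := ι '' (J : Set A)
  have hS : IsClosed S := ι.isometry.isClosedEmbedding.isClosedMap _ hc
  have memS : ∀ t, t ∈ S ↔ ∃ y ∈ J, ∀ μ, t μ = μ y := by
    intro t
    constructor
    · rintro ⟨y, hy, rfl⟩
      exact ⟨y, hy, fun μ => rfl⟩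
    · rintro ⟨y, hy, h⟩
      exact ⟨y, hy, by ext μ; exact (h μ).symm⟩
  let X : Submodule ℂ (VV A) :=
    { carrier := {T | ∀ ν : A →L[ℂ] ℂ, (∀ y ∈ J, ν y = 0) →
        (∃ y ∈ J, ∀ μ, T ν μ = μ y) ∧ (∃ y ∈ J, ∀ μ, T μ ν = μ y)}
      add_mem' := by
        intro T T' hT hT' ν hν
        obtain ⟨⟨y, hy, e⟩, ⟨z, hz, f⟩⟩ := hT ν hν
        obtain ⟨⟨y', hy', e'⟩, ⟨z', hz', f'⟩⟩ := hT' ν hν
        exact ⟨⟨y + y', J.add_mem hy hy', fun μ => by simp [e, e']⟩,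
          ⟨z + z', J.add_mem hz hz', fun μ => by simp [f, f']⟩⟩
      zero_mem' := fun ν _ => ⟨⟨0, J.zero_mem, by simp⟩, ⟨0, J.zero_mem, by simp⟩⟩
      smul_mem' := by
        intro s T hT ν hν
        obtain ⟨⟨y, hy, e⟩, ⟨z, hz, f⟩⟩ := hT ν hν
        exact ⟨⟨s • y, J.smul_mem s hy, fun μ => by simp [e]⟩,
          ⟨s • z, J.smul_mem s hz, fun μ => by simp [f]⟩⟩ }
  have memX : ∀ T, T ∈ X ↔ ∀ ν : A →L[ℂ] ℂ, (∀ y ∈ J, ν y = 0) →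
        (∃ y ∈ J, ∀ μ, T ν μ = μ y) ∧ (∃ y ∈ J, ∀ μ, T μ ν = μ y) := fun T => Iff.rfl
  have hX : IsClosed (X : Set (VV A)) := by
    have : (X : Set (VV A)) = ⋂ ν : A →L[ℂ] ℂ, ⋂ _ : (∀ y ∈ J, ν y = 0),
        ((fun T : VV A => T ν) ⁻¹' S ∩ (fun T : VV A => T.flip ν) ⁻¹' S) := by
      ext T
      simp only [SetLike.mem_coe, memX, Set.mem_iInter, Set.mem_inter_iff, Set.mem_preimage, memS,
        ContinuousLinearMap.flip_apply]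
    rw [this]
    refine isClosed_iInter fun ν => isClosed_iInter fun _ => IsClosed.inter ?_ ?_
    · exact hS.preimage (ContinuousLinearMap.apply ℂ ((A →L[ℂ] ℂ) →L[ℂ] ℂ) ν).continuous
    · exact hS.preimage ((ContinuousLinearMap.apply ℂ ((A →L[ℂ] ℂ) →L[ℂ] ℂ) ν).continuous.comp
        (ContinuousLinearMap.flipₗᵢ ℂ (A →L[ℂ] ℂ) (A →L[ℂ] ℂ) ℂ).continuous)
  let Δ : VV A := ∑ p, tens (φ.u p) (c p)
  have hΔ : ∀ l μ, Δ l μ = ∑ p, l (φ.u p) * μ (c p) := by intro l μ; simp [Δ]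
  have key : ∀ ν ν' : A →L[ℂ] ℂ, (∀ y ∈ J, ν y = 0) → (∀ y ∈ J, ν' y = 0) → ∀ a,
      ∑ k, ν (a * φ.u k) * ν' (c k) = ∑ k, ν (φ.u k) * ν' (c k * a) := by
    intro ν ν' hν hν' a
    exact hc2 ((LinearMap.mul ℂ ℂ).compl₁₂ (ν : A →ₗ[ℂ] ℂ) (ν' : A →ₗ[ℂ] ℂ))
      (by intro y hy x; simp [hν y hy]) (by intro y hy x; simp [hν' y hy]) a
  obtain ⟨C, hC0, hC⟩ := sub_forms h X hX
    (by
      intro a T hT ν hν
      obtain ⟨⟨y, hy, e⟩, -⟩ := hT _ (φ.actR_J ν hν a)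
      obtain ⟨-, ⟨z, hz, f⟩⟩ := hT ν hν
      exact ⟨⟨y, hy, fun μ => by simp [e]⟩, ⟨a * z, φ.mul_l a z hz, fun μ => by simp [f]⟩⟩)
    (by
      intro a T hT ν hν
      obtain ⟨⟨y, hy, e⟩, -⟩ := hT ν hν
      obtain ⟨-, ⟨z, hz, f⟩⟩ := hT _ (φ.actL_J ν hν a)
      exact ⟨⟨y * a, φ.mul_r a y hy, fun μ => by simp [e]⟩, ⟨z, hz, fun μ => by simp [f]⟩⟩)
    Δ
    (by
      intro a ν hν
      refine ⟨⟨∑ p, ν (a * φ.u p) • c p - ∑ p, ν (φ.u p) • (c p * a), ?_, fun μ => ?_⟩,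
        ⟨∑ p, ν (c p) • (a * φ.u p) - ∑ p, ν (c p * a) • φ.u p, ?_, fun μ => ?_⟩⟩
      · rw [φ.mem_iff]
        intro k
        simp only [map_sub, map_sum, map_smul, smul_eq_mul]
        rw [key ν (φ.lam k) hν (φ.lam_J k) a, sub_self]
      · simp [hΔ]
      · rw [φ.mem_iff]
        intro k
        simp only [map_sub, map_sum, map_smul, smul_eq_mul]
        have := key (φ.lam k) ν (φ.lam_J k) hν a
        simp only [mul_comm (ν _)]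
        rw [this, sub_self]
      · simp [hΔ, mul_comm])
  refine ⟨C, hC0, fun F ε hε => ?_⟩
  obtain ⟨M, hM1, hM2, hM3⟩ := hC F ε hε
  have hM1' := fun k => (memX _).1 hM1 (φ.lam k) (φ.lam_J k)
  choose y hy e using fun k => (hM1' k).1
  choose z hz f using fun k => (hM1' k).2
  refine ⟨⟨M, fun k => ∑ p, φ.lam k (φ.u p) • c p - y k,
    fun k => ∑ p, φ.lam k (c p) • φ.u p - z k, ?_, ?_, ?_, ?_, hM2⟩, hM3⟩
  · intro k μ
    have := e k μ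
    simp only [sub_apply, hΔ] at this
    simp only [map_sub, map_sum, map_smul, smul_eq_mul]
    linear_combination -this
  · intro k μ
    have := f k μ
    simp only [sub_apply, hΔ] at this
    simp only [map_sub, map_sum, map_smul, smul_eq_mul, mul_comm (φ.lam k _)]
    linear_combination -this
  · intro k
    simpa using hy k
  · intro k
    simpa using hz k

namespace Frame

variable (φ : Frame J d)

/-- Projection onto `J`. -/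
noncomputable def pr : A →L[ℂ] A :=
  ContinuousLinearMap.id ℂ A - ∑ k, (φ.lam k).smulRight (φ.u k)

theorem P_apply (a : A) : φ.pr a = a - ∑ k, φ.lam k a • φ.u k := by simp [pr]

theorem P_mem (a : A) : φ.pr a ∈ J := by rw [P_apply]; exact φ.sub_mem a

/-- The constant `∑ ‖u k‖ ‖lam k‖`. -/
noncomputable def kap : ℝ := ∑ k, ‖φ.u k‖ * ‖φ.lam k‖

theorem kap_nonneg : 0 ≤ φ.kap := by unfold kap; positivity

end Frame

namespace Adm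

variable {φ : Frame J d} {c : Fin d → A} {C : ℝ} (m : Adm φ c C)

/-- Slice in the second variable. -/
noncomputable def tau (ν : A →L[ℂ] ℂ) : A := ∑ k, ν (φ.u k) • m.H k

theorem M_tau (ν : A →L[ℂ] ℂ) (hν : ∀ y ∈ J, ν y = 0) (μ : A →L[ℂ] ℂ) :
    m.M ν μ = μ (m.tau ν) := by
  conv_lhs => rw [φ.dual_expand ν hν]
  simp [tau, m.hH]

theorem tau_lam (k : Fin d) : m.tau (φ.lam k) = m.H k := by
  rw [← sub_eq_zero, ← norm_le_zero_iff]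
  refine NormedSpace.norm_le_dual_bound ℂ _ le_rfl fun μ => ?_
  rw [map_sub, ← m.M_tau _ (φ.lam_J k), m.hH]
  simp

theorem tau_actR (ν : A →L[ℂ] ℂ) (hν : ∀ y ∈ J, ν y = 0) (a : A) :
    ‖m.tau (actR a ν) - m.tau ν * a‖ ≤ ‖LL a m.M - RR a m.M‖ * ‖ν‖ := by
  refine NormedSpace.norm_le_dual_bound ℂ _ (by positivity) fun μ => ?_
  have : μ (m.tau (actR a ν) - m.tau ν * a) = (LL a m.M - RR a m.M) ν μ := by
    simp [m.M_tau _ hν, m.M_tau _ (φ.actR_J ν hν a)]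
  rw [this]
  exact ContinuousLinearMap.le_opNorm₂ _ _ _

theorem H_mul (k : Fin d) (y : A) (hy : y ∈ J) :
    ‖m.H k * y‖ ≤ ‖LL y m.M - RR y m.M‖ * ‖φ.lam k‖ := by
  refine NormedSpace.norm_le_dual_bound ℂ _ (by positivity) fun μ => ?_
  have : μ (m.H k * y) = -((LL y m.M - RR y m.M) (φ.lam k) μ) := by
    simp [φ.actR_zero _ (φ.lam_J k) y hy, m.hH]
  rw [this, norm_neg]
  exact ContinuousLinearMap.le_opNorm₂ _ _ _

theorem mul_H' (k : Fin d) (y : A) (hy : y ∈ J) :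
    ‖y * m.H' k‖ ≤ ‖LL y m.M - RR y m.M‖ * ‖φ.lam k‖ := by
  refine NormedSpace.norm_le_dual_bound ℂ _ (by positivity) fun μ => ?_
  have : μ (y * m.H' k) = (LL y m.M - RR y m.M) μ (φ.lam k) := by
    simp [φ.actL_zero _ (φ.lam_J k) y hy, m.hH']
  rw [this, mul_right_comm]
  exact ContinuousLinearMap.le_opNorm₂ _ _ _

/-- The left approximate identity. -/
noncomputable def ell : A := 1 - ∑ k, φ.u k * m.H k

/-- The right approximate identity. -/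
noncomputable def rr : A := 1 - ∑ k, m.H' k * φ.u k

theorem ell_mem (hc1 : (∑ k, φ.u k * c k) - 1 ∈ J) : m.ell ∈ J := by
  have h1 : ∑ k, φ.u k * (m.H k - ∑ p, φ.lam k (φ.u p) • c p) ∈ J :=
    J.sum_mem fun k _ => φ.mul_l _ _ (m.HJ k)
  have h2 : ∑ p, (φ.u p - ∑ k, φ.lam k (φ.u p) • φ.u k) * c p ∈ J :=
    J.sum_mem fun p _ => φ.mul_r _ _ (φ.sub_mem _)
  have := J.sub_mem (J.sub_mem h2 h1) hc1
  convert this using 1
  simp only [ell, mul_sub, sub_mul, Finset.sum_sub_distrib, Finset.mul_sum, Finset.sum_mul,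
    mul_smul_comm, smul_mul_assoc]
  rw [Finset.sum_comm (f := fun k p => φ.lam k (φ.u p) • (φ.u k * c p))]
  abel

theorem rr_mem (hc1 : (∑ k, φ.u k * c k) - 1 ∈ J) : m.rr ∈ J := by
  have h1 : ∑ k, (m.H' k - ∑ p, φ.lam k (c p) • φ.u p) * φ.u k ∈ J :=
    J.sum_mem fun k _ => φ.mul_r _ _ (m.H'J k)
  have h2 : ∑ p, φ.u p * (c p - ∑ k, φ.lam k (c p) • φ.u k) ∈ J :=
    J.sum_mem fun p _ => φ.mul_l _ _ (φ.sub_mem _)
  have := J.sub_mem (J.sub_mem h2 h1) hc1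
  convert this using 1
  simp only [rr, mul_sub, sub_mul, Finset.sum_sub_distrib, Finset.mul_sum, Finset.sum_mul,
    mul_smul_comm, smul_mul_assoc]
  rw [Finset.sum_comm (f := fun k p => φ.lam k (c p) • (φ.u p * φ.u k))]
  abel

theorem ell_approx (y : A) (hy : y ∈ J) :
    ‖m.ell * y - y‖ ≤ φ.kap * ‖LL y m.M - RR y m.M‖ := by
  have : m.ell * y - y = -∑ k, φ.u k * (m.H k * y) := by
    simp only [ell, sub_mul, Finset.sum_mul, mul_assoc, one_mul]; abel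
  rw [this, norm_neg, Frame.kap, Finset.sum_mul]
  refine (norm_sum_le _ _).trans (Finset.sum_le_sum fun k _ => ?_)
  calc ‖φ.u k * (m.H k * y)‖ ≤ ‖φ.u k‖ * ‖m.H k * y‖ := norm_mul_le _ _
    _ ≤ ‖φ.u k‖ * (‖LL y m.M - RR y m.M‖ * ‖φ.lam k‖) := by gcongr; exact m.H_mul k y hy
    _ = _ := by ring

theorem rr_approx (y : A) (hy : y ∈ J) :
    ‖y * m.rr - y‖ ≤ φ.kap * ‖LL y m.M - RR y m.M‖ := by
  have : y * m.rr - y = -∑ k, (y * m.H' k) * φ.u k := by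
    simp only [rr, mul_sub, Finset.mul_sum, mul_assoc, mul_one]; abel
  rw [this, norm_neg, Frame.kap, Finset.sum_mul]
  refine (norm_sum_le _ _).trans (Finset.sum_le_sum fun k _ => ?_)
  calc ‖(y * m.H' k) * φ.u k‖ ≤ ‖y * m.H' k‖ * ‖φ.u k‖ := norm_mul_le _ _
    _ ≤ (‖LL y m.M - RR y m.M‖ * ‖φ.lam k‖) * ‖φ.u k‖ := by gcongr; exact m.mul_H' k y hy
    _ = _ := by ring

theorem ell_mul_le (y : A) (hy : y ∈ J) : ‖m.ell * y‖ ≤ (1 + φ.kap * C) * ‖y‖ := by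
  have h1 := m.ell_approx y hy
  have h2 : φ.kap * ‖LL y m.M - RR y m.M‖ ≤ φ.kap * (C * ‖y‖) :=
    mul_le_mul_of_nonneg_left (m.bdd y) φ.kap_nonneg
  have h3 : ‖m.ell * y‖ ≤ ‖m.ell * y - y‖ + ‖y‖ := by
    simpa using norm_add_le (m.ell * y - y) y
  nlinarith

theorem mul_rr_le (y : A) (hy : y ∈ J) : ‖y * m.rr‖ ≤ (1 + φ.kap * C) * ‖y‖ := by
  have h1 := m.rr_approx y hy
  have h2 : φ.kap * ‖LL y m.M - RR y m.M‖ ≤ φ.kap * (C * ‖y‖) :=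
    mul_le_mul_of_nonneg_left (m.bdd y) φ.kap_nonneg
  have h3 : ‖y * m.rr‖ ≤ ‖y * m.rr - y‖ + ‖y‖ := by
    simpa using norm_add_le (y * m.rr - y) y
  nlinarith

/-- The cross-norm inequality. -/
theorem cross (hC : 0 ≤ C) (f e : A) (hf : f ∈ J) (he : e ∈ J) (K K' : ℝ) (hK : 0 ≤ K)
    (hK' : 0 ≤ K') (hfK : ∀ y ∈ J, ‖f * y‖ ≤ K * ‖y‖) (heK : ∀ y ∈ J, ‖y * e‖ ≤ K' * ‖y‖)
    (l μ : A →L[ℂ] ℂ) :
    ‖∑ k, μ (φ.u k * e) * l (f * m.H' k) - ∑ k, l (f * φ.u k) * μ (m.H k * e)‖ ≤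
      C * ‖l‖ * ‖μ‖ * (K * ‖e‖ + K * ‖φ.pr‖ * ‖e‖ + K' * ‖φ.pr‖ * ‖f‖) := by
  set l1 : A →L[ℂ] ℂ := (actR f l).comp φ.pr with hl1
  set μ1 : A →L[ℂ] ℂ := (actL e μ).comp φ.pr with hμ1
  have dl : actR f l = l1 + ∑ k, l (f * φ.u k) • φ.lam k := by
    ext x
    simp [hl1, φ.P_apply, mul_sub, Finset.mul_sum, mul_comm]
  have dμ : actL e μ = μ1 + ∑ k, μ (φ.u k * e) • φ.lam k := by
    ext x
    simp [hμ1, φ.P_apply, sub_mul, Finset.sum_mul, mul_comm]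
  have nl1 : ‖l1‖ ≤ ‖l‖ * (K * ‖φ.pr‖) := by
    refine ContinuousLinearMap.opNorm_le_bound _ (by positivity) fun x => ?_
    calc ‖l1 x‖ = ‖l (f * φ.pr x)‖ := rfl
      _ ≤ ‖l‖ * ‖f * φ.pr x‖ := l.le_opNorm _
      _ ≤ ‖l‖ * (K * ‖φ.pr x‖) := by gcongr; exact hfK _ (φ.P_mem x)
      _ ≤ ‖l‖ * (K * (‖φ.pr‖ * ‖x‖)) := by gcongr; exact φ.pr.le_opNorm x
      _ = _ := by ring
  have nμ1 : ‖μ1‖ ≤ ‖μ‖ * (K' * ‖φ.pr‖) := by
    refine ContinuousLinearMap.opNorm_le_bound _ (by positivity) fun x => ?_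
    calc ‖μ1 x‖ = ‖μ (φ.pr x * e)‖ := rfl
      _ ≤ ‖μ‖ * ‖φ.pr x * e‖ := μ.le_opNorm _
      _ ≤ ‖μ‖ * (K' * ‖φ.pr x‖) := by gcongr; exact heK _ (φ.P_mem x)
      _ ≤ ‖μ‖ * (K' * (‖φ.pr‖ * ‖x‖)) := by gcongr; exact φ.pr.le_opNorm x
      _ = _ := by ring
  have e1 : (LL e m.M - RR e m.M) (actR f l) μ =
      (LL e m.M - RR e m.M) l1 μ - ∑ k, l (f * φ.u k) * μ (m.H k * e) := by
    rw [dl, map_add, map_sum, add_apply, sum_apply,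
      sub_eq_add_neg _ (∑ k, l (f * φ.u k) * μ (m.H k * e)), ← Finset.sum_neg_distrib]
    congr 1
    refine Finset.sum_congr rfl fun k _ => ?_
    simp [φ.actR_zero _ (φ.lam_J k) e he, m.hH]
  have e2 : (LL f m.M - RR f m.M) l (actL e μ) =
      (LL f m.M - RR f m.M) l μ1 + ∑ k, μ (φ.u k * e) * l (f * m.H' k) := by
    rw [dμ, map_add, map_sum]
    congr 1
    refine Finset.sum_congr rfl fun k _ => ?_
    simp [φ.actL_zero _ (φ.lam_J k) f hf, m.hH']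
  have e3 : (LL (f * e) m.M - RR (f * e) m.M) l μ =
      (LL e m.M - RR e m.M) (actR f l) μ + (LL f m.M - RR f m.M) l (actL e μ) := by
    simp [actR_mul, actL_mul]
  have e4 : ∑ k, μ (φ.u k * e) * l (f * m.H' k) - ∑ k, l (f * φ.u k) * μ (m.H k * e) =
      (LL (f * e) m.M - RR (f * e) m.M) l μ - (LL e m.M - RR e m.M) l1 μ
        - (LL f m.M - RR f m.M) l μ1 := by
    rw [e3, e1, e2]; ring
  have b1 : ‖(LL (f * e) m.M - RR (f * e) m.M) l μ‖ ≤ C * (K * ‖e‖) * ‖l‖ * ‖μ‖ := by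
    refine (ContinuousLinearMap.le_opNorm₂ _ _ _).trans ?_
    gcongr
    exact (m.bdd _).trans (mul_le_mul_of_nonneg_left (hfK e he) hC)
  have b2 : ‖(LL e m.M - RR e m.M) l1 μ‖ ≤ C * ‖e‖ * (‖l‖ * (K * ‖φ.pr‖)) * ‖μ‖ := by
    refine (ContinuousLinearMap.le_opNorm₂ _ _ _).trans ?_
    gcongr
    exact m.bdd _
  have b3 : ‖(LL f m.M - RR f m.M) l μ1‖ ≤ C * ‖f‖ * ‖l‖ * (‖μ‖ * (K' * ‖φ.pr‖)) := by
    refine (ContinuousLinearMap.le_opNorm₂ _ _ _).trans ?_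
    gcongr
    exact m.bdd _
  rw [e4]
  refine (norm_sub_le _ _).trans ?_
  refine (add_le_add_left (norm_sub_le _ _) _).trans ?_
  nlinarith

end Adm

end Pool.Agent.P.MP_086137_an
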