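import Mathlib

set_option autoImplicit false

namespace Pool.Agent.P.MP_086137_an

variable {A : Type} [NonUnitalNormedRing A] [NormedSpace ℂ A]

/-- `L`, `R` are commuting left and right actions of `A` on `X`. -/
def IsBimodule {X : Type} (L R : A → X → X) : Prop :=
  (∀ a b x, L (a * b) x = L a (L b x)) ∧ (∀ a b x, R (a * b) x = R b (R a x)) ∧
    ∀ a b x, L a (R b x) = R b (L a x)

/-- `D` is a pointwise limit of a uniformly bounded net of inner derivations. -/
def BddApproxInner {X : Type} [NormedAddCommGroup X] (L R : A → X → X) (D : A → X) : Prop :=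
  ∃ C : ℝ, ∀ F : Finset A, ∀ ε : ℝ, 0 < ε → ∃ ξ : X,
    (∀ a : A, ‖L a ξ - R a ξ‖ ≤ C * ‖a‖) ∧ ∀ a ∈ F, ‖D a - (L a ξ - R a ξ)‖ < ε

/-- `D` satisfies the derivation identity. -/
def IsDerivation {X : Type} [AddCommGroup X] (L R : A → X → X) (D : A → X) : Prop :=
  ∀ a b : A, D (a * b) = L a (D b) + R b (D a)

/-- Bounded approximate contractibility. -/
def BddApproxContractible (A : Type) [NonUnitalNormedRing A] [NormedSpace ℂ A] : Prop :=
  ∀ (X : Type) [NormedAddCommGroup X] [NormedSpace ℂ X] [CompleteSpace X]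
    (L R : A → X → X) (D : A → X),
    IsBoundedBilinearMap ℂ (fun p : A × X => L p.1 p.2) →
    IsBoundedBilinearMap ℂ (fun p : A × X => R p.1 p.2) →
    IsBoundedLinearMap ℂ D → IsBimodule L R → IsDerivation L R D → BddApproxInner L R D

/-- `J` has a bounded two-sided approximate identity. -/
def HasBAI (J : Set A) : Prop :=
  ∃ C : ℝ, ∀ F : Finset A, (∀ x ∈ F, x ∈ J) → ∀ ε : ℝ, 0 < ε →
    ∃ e ∈ J, ‖e‖ ≤ C ∧ ∀ x ∈ F, ‖e * x - x‖ < ε ∧ ‖x * e - x‖ < ε

end Pool.Agent.P.MP_086137_an
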