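import Mathlib
import Pool.Agent.P.MP_086137_an.Adm

set_option autoImplicit false
set_option maxSynthPendingDepth 3

namespace Pool.Agent.P.MP_086137_an

open scoped BigOperators
open Filter Topology

variable {A : Type} [NormedRing A] [NormedAlgebra ℂ A]
variable {J : Submodule ℂ A} {d : ℕ}

theorem limit_lemma {φ : Frame J d} {c : Fin d → A} {C : ℝ} (hC : 0 ≤ C)
    (hc1 : (∑ k, φ.u k * c k) - 1 ∈ J)
    (hex : ∀ F : Finset A, ∀ ε : ℝ, 0 < ε →
      ∃ m : Adm φ c C, ∀ a ∈ F, ‖LL a m.M - RR a m.M‖ < ε)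
    (g : ℕ → A) (hg : ∀ n, g n ∈ J) (hg1 : ∀ n, ‖g n‖ ≤ 1) (K : ℕ → ℝ) (hK0 : ∀ n, 0 ≤ K n)
    (hK : Tendsto K atTop (𝓝 0)) (hgK : ∀ n, ∀ y ∈ J, ‖g n * y‖ ≤ K n * ‖y‖)
    (μ : ℕ → (A →L[ℂ] ℂ)) (B : ℝ) (hμ : ∀ n, ‖μ n‖ ≤ B)
    (θ : A →L[ℂ] ℂ) (hθ : ∀ y ∈ J, θ y = 0)
    (hlim : ∀ x, Tendsto (fun n => μ n (g n * x)) atTop (𝓝 (θ x))) :
    ∃ K0 : ℝ, ∀ m : Adm φ c C, ‖m.tau θ‖ ≤ K0 := by
  classical
  set K' : ℝ := 1 + φ.kap * C with hK'
  have hK'0 : 0 ≤ K' := by have := φ.kap_nonneg; positivity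
  have hB : 0 ≤ B := (norm_nonneg _).trans (hμ 0)
  have step1 : ∀ m m' : Adm φ c C, ‖φ.pr (m.tau θ) * m'.rr‖ ≤ C * B * (K' * ‖φ.pr‖) := by
    intro m m'
    refine NormedSpace.norm_le_dual_bound ℂ _ (by positivity) fun ν => ?_
    set e := m'.rr with he
    have t1 : Tendsto (fun n => ‖∑ k, ν (φ.u k * e) * μ n (g n * m.H' k)
        - ∑ k, μ n (g n * φ.u k) * ν (m.H k * e)‖) atTop
        (𝓝 ‖∑ k, ν (φ.u k * e) * θ (m.H' k) - ∑ k, θ (φ.u k) * ν (m.H k * e)‖) := by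
      refine Tendsto.norm (Tendsto.sub ?_ ?_)
      · exact tendsto_finsetSum _ fun k _ => (hlim _).const_mul _
      · exact tendsto_finsetSum _ fun k _ => (hlim _).mul_const _
    have t2 : Tendsto (fun n => C * B * ‖ν‖ * (K n * ‖e‖ + K n * ‖φ.pr‖ * ‖e‖ + K' * ‖φ.pr‖))
        atTop (𝓝 (C * B * ‖ν‖ * (0 * ‖e‖ + 0 * ‖φ.pr‖ * ‖e‖ + K' * ‖φ.pr‖))) := by
      refine Tendsto.const_mul _ (Tendsto.add_const _ (Tendsto.add ?_ ?_))
      · exact hK.mul_const _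
      · exact (hK.mul_const _).mul_const _
    have t3 := le_of_tendsto_of_tendsto' t1 t2 (fun n => by
      refine (m.cross hC (g n) e (hg n) (m'.rr_mem hc1) (K n) K' (hK0 n) hK'0 (hgK n)
        (fun y hy => m'.mul_rr_le y hy) (μ n) ν).trans ?_
      have := hK0 n
      have h1 : K' * ‖φ.pr‖ * ‖g n‖ ≤ K' * ‖φ.pr‖ := mul_le_of_le_one_right (by positivity) (hg1 n)
      gcongr
      exact hμ n)
    have e1 : ν (φ.pr (m.tau θ) * e) =
        -(∑ k, ν (φ.u k * e) * θ (m.H' k) - ∑ k, θ (φ.u k) * ν (m.H k * e)) := by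
      have h1 : ∀ k, θ (m.H' k) = φ.lam k (m.tau θ) := fun k => by
        rw [← m.hH', m.M_tau θ hθ]
      have h2 : ν (m.tau θ * e) = ∑ k, θ (φ.u k) * ν (m.H k * e) := by
        simp [Adm.tau, Finset.sum_mul]
      rw [φ.P_apply, sub_mul, map_sub, h2]
      simp only [h1, Finset.sum_mul, smul_mul_assoc, map_sum, map_smul, smul_eq_mul,
        mul_comm (φ.lam _ _)]
      ring
    rw [e1, norm_neg]
    refine t3.trans (le_of_eq ?_)
    ring
  have step2 : ∀ m : Adm φ c C, ‖φ.pr (m.tau θ)‖ ≤ C * B * (K' * ‖φ.pr‖) + φ.kap := by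
    intro m
    obtain ⟨m', hm'⟩ := hex {φ.pr (m.tau θ)} 1 one_pos
    have h1 := m'.rr_approx _ (φ.P_mem (m.tau θ))
    have h2 := hm' _ (Finset.mem_singleton_self _)
    have h3 := step1 m m'
    have h4 : ‖φ.pr (m.tau θ)‖ ≤ ‖φ.pr (m.tau θ) * m'.rr‖
        + ‖φ.pr (m.tau θ) * m'.rr - φ.pr (m.tau θ)‖ := by
      simpa using norm_sub_le (φ.pr (m.tau θ) * m'.rr) (φ.pr (m.tau θ) * m'.rr - φ.pr (m.tau θ))
    have h5 := mul_le_mul_of_nonneg_left h2.le φ.kap_nonneg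
    linarith
  set t0 : A := ∑ k, θ (φ.u k) • ∑ p, φ.lam k (φ.u p) • c p with ht0
  refine ⟨C * B * (K' * ‖φ.pr‖) + φ.kap + ‖∑ k, φ.lam k t0 • φ.u k‖, fun m => ?_⟩
  have h1 : m.tau θ - t0 ∈ J := by
    rw [Adm.tau, ht0, ← Finset.sum_sub_distrib]
    refine J.sum_mem fun k _ => ?_
    rw [← smul_sub]
    exact J.smul_mem _ (m.HJ k)
  have h2 : ∀ k, φ.lam k (m.tau θ) = φ.lam k t0 := fun k => by
    rw [← sub_eq_zero, ← map_sub]; exact φ.lam_J k _ h1
  have h3 : m.tau θ = φ.pr (m.tau θ) + ∑ k, φ.lam k t0 • φ.u k := by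
    rw [φ.P_apply]; simp [h2]
  calc ‖m.tau θ‖ = ‖φ.pr (m.tau θ) + ∑ k, φ.lam k t0 • φ.u k‖ := by rw [← h3]
    _ ≤ _ := (norm_add_le _ _).trans (add_le_add_left (step2 m) _)

namespace Frame

variable (φ : Frame J d)

/-- The continuous version of an algebraic functional vanishing on `J`. -/
noncomputable def hat : Module.Dual ℂ A →ₗ[ℂ] (A →L[ℂ] ℂ) where
  toFun θ := ∑ k, θ (φ.u k) • φ.lam k
  map_add' := by intro a b; simp [add_smul, Finset.sum_add_distrib]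
  map_smul' := by intro s a; simp [Finset.smul_sum, smul_smul]

theorem hat_apply (θ : Module.Dual ℂ A) (hθ : ∀ y ∈ J, θ y = 0) (x : A) : φ.hat θ x = θ x := by
  rw [φ.expand θ hθ x]
  simp [hat, mul_comm]

theorem split (l : A →L[ℂ] ℂ) (g x : A) :
    l (g * x) = l (g * φ.pr x) + ∑ k, l (g * φ.u k) * φ.lam k x := by
  rw [φ.P_apply, mul_sub, map_sub, Finset.mul_sum, map_sum]
  simp only [mul_smul_comm, map_smul, smul_eq_mul, mul_comm (φ.lam _ _)]
  ring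

theorem hat_coe (ν : A →L[ℂ] ℂ) (hν : ∀ y ∈ J, ν y = 0) : φ.hat (ν : A →ₗ[ℂ] ℂ) = ν := by
  ext x; exact φ.hat_apply _ hν x

end Frame

theorem tau_add {φ : Frame J d} {c : Fin d → A} {C : ℝ} (m : Adm φ c C) (ν ν' : A →L[ℂ] ℂ) :
    m.tau (ν + ν') = m.tau ν + m.tau ν' := by
  simp [Adm.tau, add_smul, Finset.sum_add_distrib]

theorem tau_smul {φ : Frame J d} {c : Fin d → A} {C : ℝ} (m : Adm φ c C) (s : ℂ)
    (ν : A →L[ℂ] ℂ) : m.tau (s • ν) = s • m.tau ν := by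
  simp [Adm.tau, Finset.smul_sum, smul_smul]

theorem ell_bounded {φ : Frame J d} {c : Fin d → A} {C : ℝ} (hC : 0 ≤ C)
    (hc1 : (∑ k, φ.u k * c k) - 1 ∈ J)
    (hc2 : ∀ (β : A →ₗ[ℂ] A →ₗ[ℂ] ℂ), (∀ y ∈ J, ∀ x, β y x = 0) → (∀ y ∈ J, ∀ x, β x y = 0) →
        ∀ a, ∑ k, β (a * φ.u k) (c k) = ∑ k, β (φ.u k) (c k * a))
    (hex : ∀ F : Finset A, ∀ ε : ℝ, 0 < ε →
      ∃ m : Adm φ c C, ∀ a ∈ F, ‖LL a m.M - RR a m.M‖ < ε) :
    ∃ K0 : ℝ, ∀ m : Adm φ c C, ‖m.ell‖ ≤ K0 := by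
  classical
  let Θ : Submodule ℂ (Module.Dual ℂ A) :=
    { carrier := {θ | (∀ y ∈ J, θ y = 0) ∧
        ∀ b, ∃ K0 : ℝ, ∀ m : Adm φ c C, ‖m.tau (actL b (φ.hat θ))‖ ≤ K0}
      add_mem' := by
        rintro θ θ' ⟨h1, h2⟩ ⟨h1', h2'⟩
        refine ⟨fun y hy => by simp [h1 y hy, h1' y hy], fun b => ?_⟩
        obtain ⟨K, hK⟩ := h2 b
        obtain ⟨K', hK'⟩ := h2' b
        refine ⟨K + K', fun m => ?_⟩
        rw [map_add, map_add, tau_add]
        exact (norm_add_le _ _).trans (add_le_add (hK m) (hK' m))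
      zero_mem' := ⟨fun y _ => rfl, fun b => ⟨0, fun m => by simp [Adm.tau]⟩⟩
      smul_mem' := by
        rintro s θ ⟨h1, h2⟩
        refine ⟨fun y hy => by simp [h1 y hy], fun b => ?_⟩
        obtain ⟨K, hK⟩ := h2 b
        refine ⟨‖s‖ * K, fun m => ?_⟩
        rw [map_smul, map_smul, tau_smul, norm_smul]
        exact mul_le_mul_of_nonneg_left (hK m) (norm_nonneg _) }
  have memΘ : ∀ θ, θ ∈ Θ ↔ (∀ y ∈ J, θ y = 0) ∧
        ∀ b, ∃ K0 : ℝ, ∀ m : Adm φ c C, ‖m.tau (actL b (φ.hat θ))‖ ≤ K0 := fun _ => Iff.rfl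
  have hfin : FiniteDimensional ℂ Θ := by
    have hle : Θ ≤ Submodule.span ℂ (Set.range fun k => (φ.lam k : A →ₗ[ℂ] ℂ)) := by
      intro θ hθ
      have : θ = ∑ k, θ (φ.u k) • (φ.lam k : A →ₗ[ℂ] ℂ) := by
        ext x
        rw [φ.expand θ hθ.1 x]
        simp [mul_comm]
      rw [this]
      exact Submodule.sum_mem _ fun k _ =>
        Submodule.smul_mem _ _ (Submodule.subset_span ⟨k, rfl⟩)
    have := FiniteDimensional.span_of_finite ℂ
      (Set.finite_range fun k => (φ.lam k : A →ₗ[ℂ] ℂ))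
    exact Submodule.finiteDimensional_of_le hle
  let N : Submodule ℂ A := Θ.dualCoannihilator
  have memN : ∀ x, x ∈ N ↔ ∀ θ ∈ Θ, θ x = 0 := fun x => Submodule.mem_dualCoannihilator x
  have JN : ∀ y ∈ J, y ∈ N := fun y hy => (memN y).2 fun θ hθ => hθ.1 y hy
  have Nr : ∀ n ∈ N, ∀ b, n * b ∈ N := by
    intro n hn b
    rw [memN] at hn ⊢
    intro θ hθ
    have h0 : ∀ y ∈ J, (θ.comp (LinearMap.mulRight ℂ b)) y = 0 :=
      fun y hy => hθ.1 _ (φ.mul_r b y hy)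
    refine hn (θ.comp (LinearMap.mulRight ℂ b)) ⟨h0, fun b' => ?_⟩
    obtain ⟨K, hK⟩ := hθ.2 (b' * b)
    refine ⟨K, fun m => ?_⟩
    have : actL b' (φ.hat (θ.comp (LinearMap.mulRight ℂ b))) = actL (b' * b) (φ.hat θ) := by
      ext x
      rw [actL_apply, actL_apply, φ.hat_apply _ h0, φ.hat_apply _ hθ.1]
      simp [mul_assoc]
    rw [this]
    exact hK m
  have Nl : ∀ n ∈ N, ∀ a, a * n ∈ N := by
    intro n hn a
    rw [memN] at hn ⊢
    intro θ hθ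
    have h0 : ∀ y ∈ J, (θ.comp (LinearMap.mulLeft ℂ a)) y = 0 :=
      fun y hy => hθ.1 _ (φ.mul_l a y hy)
    refine hn (θ.comp (LinearMap.mulLeft ℂ a)) ⟨h0, fun b => ?_⟩
    obtain ⟨K, hK⟩ := hθ.2 b
    refine ⟨C * ‖a‖ * ‖actL b (φ.hat θ)‖ + K * ‖a‖, fun m => ?_⟩
    have : actL b (φ.hat (θ.comp (LinearMap.mulLeft ℂ a))) = actR a (actL b (φ.hat θ)) := by
      ext x
      rw [actL_apply, actR_apply, actL_apply, φ.hat_apply _ h0, φ.hat_apply _ hθ.1]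
      simp [mul_assoc]
    rw [this]
    have hν : ∀ y ∈ J, actL b (φ.hat θ) y = 0 :=
      φ.actL_J _ (fun y hy => by rw [φ.hat_apply _ hθ.1, hθ.1 y hy]) b
    have h1 := m.tau_actR _ hν a
    have h2 : ‖m.tau (actL b (φ.hat θ)) * a‖ ≤ K * ‖a‖ :=
      (norm_mul_le _ _).trans (mul_le_mul_of_nonneg_right (hK m) (norm_nonneg _))
    have h3 := mul_le_mul_of_nonneg_right (m.bdd a) (norm_nonneg (actL b (φ.hat θ)))
    have h4 := norm_add_le (m.tau (actR a (actL b (φ.hat θ))) - m.tau (actL b (φ.hat θ)) * a)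
      (m.tau (actL b (φ.hat θ)) * a)
    rw [sub_add_cancel] at h4
    linarith
  obtain ⟨p, hp⟩ : ∃ p : A →ₗ[ℂ] N, ∀ n : N, p n = n := by
    obtain ⟨p, hp⟩ := LinearMap.exists_leftInverse_of_injective N.subtype N.ker_subtype
    exact ⟨p, fun n => LinearMap.congr_fun hp n⟩
  have hp' : ∀ n ∈ N, (p n : A) = n := fun n hn => congrArg Subtype.val (hp ⟨n, hn⟩)
  set w : A := ∑ k, (p (φ.u k) : A) * c k with hw
  have wN : w ∈ N := N.sum_mem fun k _ => Nr _ (p (φ.u k)).2 _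
  have wn : ∀ n ∈ N, w * n - n ∈ J := by
    intro n hn
    have h1 : w * n - n * ∑ k, φ.u k * c k ∈ J := by
      rw [φ.mem_iff]
      intro j
      have := hc2 (((LinearMap.mul ℂ A).compr₂ (φ.lam j : A →ₗ[ℂ] ℂ)).comp (N.subtype.comp p))
        (by
          intro y hy x
          simpa [hp' y (JN y hy)] using φ.lam_J j _ (φ.mul_r x y hy))
        (by
          intro y hy x
          simpa using φ.lam_J j _ (φ.mul_l _ y hy)) n
      simp only [LinearMap.comp_apply, LinearMap.compr₂_apply, LinearMap.mul_apply',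
        Submodule.subtype_apply, ContinuousLinearMap.coe_coe, hp' _ (Nr n hn _)] at this
      rw [map_sub, hw, Finset.sum_mul, Finset.mul_sum, map_sum, map_sum, sub_eq_zero]
      simp only [mul_assoc] at this ⊢
      exact this.symm
    have := J.add_mem h1 (φ.mul_l n _ hc1)
    convert this using 1
    noncomm_ring
  have part1 : ∃ K1 : ℝ, ∀ m : Adm φ c C, ‖m.ell * (1 - w)‖ ≤ K1 := by
    have hk : ∀ k, ∃ K : ℝ, ∀ m : Adm φ c C, ‖m.H k * (1 - w)‖ ≤ K := by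
      intro k
      have hν := φ.actR_J _ (φ.lam_J k) (1 - w)
      have hmem : ((actR (1 - w) (φ.lam k) : A →L[ℂ] ℂ) : A →ₗ[ℂ] ℂ) ∈ Θ := by
        rw [← Subspace.dualCoannihilator_dualAnnihilator_eq (W := Θ),
          Submodule.mem_dualAnnihilator]
        intro n hn
        have h1 : (1 - w) * n ∈ J := by
          have := J.neg_mem (wn n hn)
          convert this using 1
          noncomm_ring
        exact φ.lam_J k _ h1
      obtain ⟨K, hK⟩ := hmem.2 1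
      refine ⟨K + C * ‖1 - w‖ * ‖φ.lam k‖, fun m => ?_⟩
      have h1 := hK m
      have e : actL (1 : A) (φ.hat ((actR (1 - w) (φ.lam k) : A →L[ℂ] ℂ) : A →ₗ[ℂ] ℂ))
          = actR (1 - w) (φ.lam k) := by
        rw [φ.hat_coe _ hν]; ext x; simp
      rw [e] at h1
      have h2 := m.tau_actR _ (φ.lam_J k) (1 - w)
      rw [m.tau_lam] at h2
      have h3 := mul_le_mul_of_nonneg_right (m.bdd (1 - w)) (norm_nonneg (φ.lam k))
      have h4 := norm_sub_le (m.tau (actR (1 - w) (φ.lam k)))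
        (m.tau (actR (1 - w) (φ.lam k)) - m.H k * (1 - w))
      rw [sub_sub_cancel] at h4
      linarith
    choose K hK using hk
    refine ⟨‖1 - w‖ + ∑ k, ‖φ.u k‖ * K k, fun m => ?_⟩
    have : m.ell * (1 - w) = (1 - w) - ∑ k, φ.u k * (m.H k * (1 - w)) := by
      rw [Adm.ell, sub_mul, one_mul, Finset.sum_mul]
      simp only [mul_assoc]
    rw [this]
    refine (norm_sub_le _ _).trans (add_le_add_right ?_ _)
    refine (norm_sum_le _ _).trans (Finset.sum_le_sum fun k _ => ?_)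
    exact (norm_mul_le _ _).trans (mul_le_mul_of_nonneg_left (hK k m) (norm_nonneg _))
  have part2 : ∃ K2 : ℝ, ∀ m : Adm φ c C, ‖m.ell * w‖ ≤ K2 := by
    by_contra hcon
    push Not at hcon
    choose ms hms using fun n : ℕ => hcon ((n : ℝ) + 1)
    set K1 : ℝ := 1 + φ.kap * C with hK1
    have hK10 : 0 ≤ K1 := by have := φ.kap_nonneg; positivity
    let r : ℕ → ℝ := fun n => ‖(ms n).ell * w‖
    have hr : ∀ n, 0 < r n := fun n => lt_trans (by positivity) (hms n)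
    let g : ℕ → A := fun n => ((r n)⁻¹ : ℂ) • ((ms n).ell * w)
    have hgn : ∀ n, ‖g n‖ = 1 := by
      intro n
      simp only [g, norm_smul, norm_inv, Complex.norm_real, Real.norm_eq_abs, abs_of_pos (hr n)]
      exact inv_mul_cancel₀ (hr n).ne'
    have hgJ : ∀ n, g n ∈ J := fun n => J.smul_mem _ (φ.mul_r _ _ ((ms n).ell_mem hc1))
    have hgmul : ∀ n x, ‖g n * x‖ = (r n)⁻¹ * ‖(ms n).ell * (w * x)‖ := by
      intro n x
      simp only [g, smul_mul_assoc, norm_smul, norm_inv, Complex.norm_real, Real.norm_eq_abs,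
        abs_of_pos (hr n), mul_assoc]
    have hrinv : Tendsto (fun n => (r n)⁻¹) atTop (𝓝 0) := by
      refine tendsto_inv_atTop_zero.comp ?_
      refine tendsto_atTop_mono (fun n => (hms n).le) ?_
      exact tendsto_atTop_add_const_right _ _ tendsto_natCast_atTop_atTop
    have hgJ' : ∀ n x, w * x ∈ J → ‖g n * x‖ ≤ (r n)⁻¹ * (K1 * ‖w * x‖) := by
      intro n x hx
      rw [hgmul]
      exact mul_le_mul_of_nonneg_left ((ms n).ell_mul_le _ hx) (inv_pos.2 (hr n)).le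
    have hgK : ∀ n, ∀ y ∈ J, ‖g n * y‖ ≤ (r n)⁻¹ * (K1 * ‖w‖) * ‖y‖ := by
      intro n y hy
      refine (hgJ' n y (φ.mul_l _ _ hy)).trans ?_
      rw [mul_assoc, mul_assoc]
      have := inv_pos.2 (hr n)
      gcongr
      exact norm_mul_le _ _
    choose μ hμ1 hμ2 using fun n => exists_dual_vector'' ℂ (g n)
    let v : ℕ → (Fin d → ℂ) := fun n k => μ n (g n * φ.u k)
    have hv : ∀ n, v n ∈ Metric.closedBall (0 : Fin d → ℂ) (∑ k, ‖φ.u k‖) := by
      intro n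
      rw [mem_closedBall_zero_iff]
      refine (pi_norm_le_iff_of_nonneg (by positivity)).2 fun k => ?_
      calc ‖μ n (g n * φ.u k)‖ ≤ ‖μ n‖ * ‖g n * φ.u k‖ := (μ n).le_opNorm _
        _ ≤ 1 * (‖g n‖ * ‖φ.u k‖) := by gcongr; exacts [hμ1 n, norm_mul_le _ _]
        _ = ‖φ.u k‖ := by rw [hgn]; ring
        _ ≤ ∑ k, ‖φ.u k‖ :=
          Finset.single_le_sum (f := fun k => ‖φ.u k‖) (fun k _ => norm_nonneg _)
            (Finset.mem_univ k)
    obtain ⟨v0, -, s, hs, hsv⟩ := tendsto_subseq_of_bounded Metric.isBounded_closedBall hv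
    let θ : A →L[ℂ] ℂ := ∑ k, v0 k • φ.lam k
    have hθ : ∀ y ∈ J, θ y = 0 := fun y hy => by simp [θ, φ.lam_J _ y hy]
    have small : ∀ x, w * x ∈ J → Tendsto (fun n => μ (s n) (g (s n) * x)) atTop (𝓝 0) := by
      intro x hx
      refine squeeze_zero_norm (a := fun n => (r (s n))⁻¹ * (K1 * ‖w * x‖)) (fun n => ?_) ?_
      · calc ‖μ (s n) (g (s n) * x)‖ ≤ ‖μ (s n)‖ * ‖g (s n) * x‖ := (μ (s n)).le_opNorm _
          _ ≤ 1 * ((r (s n))⁻¹ * (K1 * ‖w * x‖)) := by gcongr; exacts [hμ1 _, hgJ' _ x hx]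
          _ = _ := one_mul _
      · simpa using (hrinv.comp hs.tendsto_atTop).mul_const (K1 * ‖w * x‖)
    have hlim : ∀ x, Tendsto (fun n => μ (s n) (g (s n) * x)) atTop (𝓝 (θ x)) := by
      intro x
      have e : ∀ n, μ (s n) (g (s n) * x) =
          μ (s n) (g (s n) * φ.pr x) + ∑ k, v (s n) k * φ.lam k x := by
        intro n
        exact φ.split _ _ _
      have e' : θ x = 0 + ∑ k, v0 k * φ.lam k x := by simp [θ]
      simp only [e]
      rw [e']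
      refine Tendsto.add (small _ (φ.mul_l _ _ (φ.P_mem x))) ?_
      exact tendsto_finsetSum _ fun k _ => (tendsto_pi_nhds.1 hsv k).mul_const _
    have hθ1 : θ 1 = 1 := by
      have h1 := hlim 1
      simp only [mul_one, hμ2, hgn] at h1
      simpa using tendsto_nhds_unique h1 tendsto_const_nhds
    have hθ2 : θ (1 - w) = 0 := by
      refine tendsto_nhds_unique (hlim _) (small _ ?_)
      have := J.neg_mem (wn w wN)
      convert this using 1
      noncomm_ring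
    have hθΘ : (θ : A →ₗ[ℂ] ℂ) ∈ Θ := by
      refine ⟨hθ, fun b => ?_⟩
      rw [φ.hat_coe θ hθ]
      refine limit_lemma hC hc1 hex (fun n => g (s n)) (fun n => hgJ _) (fun n => (hgn _).le)
        (fun n => (r (s n))⁻¹ * (K1 * ‖w‖)) (fun n => ?_) ?_ (fun n => hgK _)
        (fun n => actL b (μ (s n))) ‖actL b‖ (fun n => ?_) _ (φ.actL_J θ hθ b) (fun x => ?_)
      · have := inv_pos.2 (hr (s n))
        positivity
      · simpa using (hrinv.comp hs.tendsto_atTop).mul_const (K1 * ‖w‖)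
      · exact ((actL b).le_opNorm _).trans
          (mul_le_of_le_one_right (norm_nonneg _) (hμ1 _))
      · simpa [mul_assoc] using hlim (x * b)
    have h3 : θ w = 0 := (memN w).1 wN _ hθΘ
    rw [map_sub, hθ1, h3] at hθ2
    simp at hθ2
  obtain ⟨K1, h1⟩ := part1
  obtain ⟨K2, h2⟩ := part2
  refine ⟨K1 + K2, fun m => ?_⟩
  have : m.ell = m.ell * (1 - w) + m.ell * w := by noncomm_ring
  rw [this]
  exact (norm_add_le _ _).trans (add_le_add (h1 m) (h2 m))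

theorem left_bai [CompleteSpace A] (φ : Frame J d) (h : Hyp A) (hc : IsClosed (J : Set A)) :
    ∃ K : ℝ, ∀ F : Finset A, (∀ x ∈ F, x ∈ J) → ∀ ε : ℝ, 0 < ε →
      ∃ e ∈ J, ‖e‖ ≤ K ∧ ∀ x ∈ F, ‖e * x - x‖ < ε := by
  obtain ⟨c, hc1, hc2⟩ := φ.exists_c h hc
  obtain ⟨C, hC, hex⟩ := exists_adm φ h hc c hc2
  obtain ⟨K, hK⟩ := ell_bounded hC hc1 hc2 hex
  refine ⟨K, fun F hF ε hε => ?_⟩
  have hk := φ.kap_nonneg
  obtain ⟨m, hm⟩ := hex F (ε / (φ.kap + 1)) (by positivity)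
  refine ⟨m.ell, m.ell_mem hc1, hK m, fun x hx => ?_⟩
  have h1 := m.ell_approx x (hF x hx)
  have h2 := hm x hx
  rw [lt_div_iff₀ (by positivity)] at h2
  nlinarith [norm_nonneg (LL x m.M - RR x m.M)]

end Pool.Agent.P.MP_086137_an
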