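import Mathlib
import Pool.Agent.P.MP_086137_an.Main

set_option autoImplicit false
set_option maxSynthPendingDepth 3

namespace Pool.Agent.P.MP_086137_an

open scoped BigOperators
open MulOpposite

variable {A : Type} [NormedRing A] [NormedAlgebra ℂ A]

/-- `op` as a continuous linear map. -/
noncomputable def opL (A : Type) [NormedRing A] [NormedAlgebra ℂ A] : A →L[ℂ] Aᵐᵒᵖ :=
  (MulOpposite.opLinearIsometryEquiv ℂ A).toContinuousLinearEquiv.toContinuousLinearMap

/-- `unop` as a continuous linear map. -/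
noncomputable def unopL (A : Type) [NormedRing A] [NormedAlgebra ℂ A] : Aᵐᵒᵖ →L[ℂ] A :=
  (MulOpposite.opLinearIsometryEquiv ℂ A).symm.toContinuousLinearEquiv.toContinuousLinearMap

@[simp] theorem opL_apply (a : A) : opL A a = op a := rfl

@[simp] theorem unopL_apply (a : Aᵐᵒᵖ) : unopL A a = unop a := rfl

theorem Hyp.op (h : Hyp A) : Hyp Aᵐᵒᵖ := by
  classical
  intro X _ _ _ L R hL1 hR1 hL hR hLR D hD
  obtain ⟨C, hC⟩ := h X (R.comp (opL A)) (L.comp (opL A))
    (by intro x; simp [hR1]) (by intro x; simp [hL1])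
    (by intro a b; simp [hR]) (by intro a b; simp [hL])
    (by intro a b; simp [hLR]) (D.comp (opL A))
    (by intro a b; simp [hD, add_comm])
  refine ⟨C, fun F ε hε => ?_⟩
  obtain ⟨ξ, h1, h2⟩ := hC (F.image unop) ε hε
  refine ⟨-ξ, fun a => ?_, fun a ha => ?_⟩
  · have := h1 (unop a)
    simp only [ContinuousLinearMap.comp_apply, opL_apply, op_unop, norm_unop] at this
    rw [map_neg, map_neg, neg_sub_neg]
    exact this
  · have := h2 (unop a) (Finset.mem_image_of_mem _ ha)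
    simp only [ContinuousLinearMap.comp_apply, opL_apply, op_unop] at this
    rw [map_neg, map_neg, neg_sub_neg]
    exact this

/-- The frame of the opposite algebra. -/
noncomputable def Frame.op {J : Submodule ℂ A} {d : ℕ} (φ : Frame J d) :
    Frame (J.comap (unopL A : Aᵐᵒᵖ →ₗ[ℂ] A)) d where
  u k := MulOpposite.op (φ.u k)
  lam k := (φ.lam k).comp (unopL A)
  lam_J k y hy := φ.lam_J k _ hy
  sub_mem a := by
    have := φ.sub_mem (unop a)
    simpa [Finset.unop_sum] using this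
  mul_l a x hx := φ.mul_r (unop a) (unop x) hx
  mul_r a x hx := φ.mul_l (unop a) (unop x) hx

theorem main_unital [CompleteSpace A] (h : Hyp A) (J : Submodule ℂ A)
    (hJ : ∀ a x : A, x ∈ J → a * x ∈ J ∧ x * a ∈ J) (hc : IsClosed (J : Set A))
    (hf : FiniteDimensional ℂ (A ⧸ J)) :
    ∃ C : ℝ, ∀ F : Finset A, (∀ x ∈ F, x ∈ J) → ∀ ε : ℝ, 0 < ε →
      ∃ e ∈ J, ‖e‖ ≤ C ∧ ∀ x ∈ F, ‖e * x - x‖ < ε ∧ ‖x * e - x‖ < ε := by
  classical
  obtain ⟨d, ⟨φ⟩⟩ := exists_frame J hJ hc hf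
  obtain ⟨K, hK⟩ := left_bai φ h hc
  obtain ⟨K', hK'⟩ := left_bai φ.op h.op (hc.preimage (unopL A).continuous)
  refine ⟨|K| + |K'| + |K'| * |K|, fun F hF ε hε => ?_⟩
  set δ : ℝ := ε / (1 + |K| + |K'|) with hδ
  have hδ0 : 0 < δ := by positivity
  have hδε : δ * (1 + |K| + |K'|) = ε := by rw [hδ]; field_simp
  obtain ⟨l, hl, hlK, hlF⟩ := hK F hF δ hδ0
  obtain ⟨r', hr, hrK, hrF⟩ := hK' (F.image MulOpposite.op) (by
    intro x hx
    obtain ⟨y, hy, rfl⟩ := Finset.mem_image.1 hx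
    exact hF y hy) δ hδ0
  set r : A := unop r' with hr'
  have hrJ : r ∈ J := hr
  have hrn : ‖r‖ ≤ |K'| := by rw [hr', norm_unop]; exact hrK.trans (le_abs_self _)
  have hln : ‖l‖ ≤ |K| := hlK.trans (le_abs_self _)
  have hrx : ∀ x ∈ F, ‖x * r - x‖ < δ := by
    intro x hx
    have := hrF _ (Finset.mem_image_of_mem _ hx)
    rw [← norm_unop] at this
    simpa using this
  refine ⟨l + r - r * l, J.sub_mem (J.add_mem hl hrJ) (hJ r l hl).1, ?_, fun x hx => ⟨?_, ?_⟩⟩
  · refine (norm_sub_le _ _).trans (add_le_add ((norm_add_le _ _).trans (add_le_add hln hrn)) ?_)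
    exact (norm_mul_le _ _).trans (by gcongr)
  · have e : (l + r - r * l) * x - x = (l * x - x) - r * (l * x - x) := by noncomm_ring
    have h1 := hlF x hx
    have h2 : ‖r * (l * x - x)‖ ≤ |K'| * δ := (norm_mul_le _ _).trans (by gcongr)
    have h3 := norm_sub_le (l * x - x) (r * (l * x - x))
    rw [e]
    nlinarith [abs_nonneg K]
  · have e : x * (l + r - r * l) - x = (x * r - x) - (x * r - x) * l := by noncomm_ring
    have h1 := hrx x hx
    have h2 : ‖(x * r - x) * l‖ ≤ δ * |K| := (norm_mul_le _ _).trans (by gcongr)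
    have h3 := norm_sub_le (x * r - x) ((x * r - x) * l)
    rw [e]
    nlinarith [abs_nonneg K']

end Pool.Agent.P.MP_086137_an
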