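import Mathlib
import Pool.Agent.P.MP_086137_an.Final

set_option autoImplicit false
set_option maxSynthPendingDepth 3

namespace Pool.Agent.P.MP_086137_an

variable {A : Type} [NonUnitalNormedRing A] [NormedSpace ℂ A] [IsScalarTower ℂ A A]
  [SMulCommClass ℂ A A]

/-- The unitization with the `l^1` norm. -/
abbrev UU (A : Type) [NonUnitalNormedRing A] [NormedSpace ℂ A] : Type :=
  WithLp 1 (Unitization ℂ A)

/-- The inclusion into the unitization. -/
noncomputable def inc (A : Type) [NonUnitalNormedRing A] [NormedSpace ℂ A] [IsScalarTower ℂ A A]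
    [SMulCommClass ℂ A A] : A →ₗᵢ[ℂ] UU A where
  toLinearMap := (WithLp.linearEquiv 1 ℂ (Unitization ℂ A)).symm.toLinearMap.comp
    (Unitization.inrHom ℂ ℂ A)
  norm_map' := WithLp.unitization_norm_inr

theorem inc_apply (a : A) : inc A a = WithLp.toLp 1 (a : Unitization ℂ A) := rfl

theorem inc_mul (a b : A) : inc A (a * b) = inc A a * inc A b := by
  apply (WithLp.unitizationAlgEquiv ℂ (𝕜 := ℂ) (A := A)).injective
  rw [map_mul (WithLp.unitizationAlgEquiv ℂ (𝕜 := ℂ) (A := A))]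
  exact Unitization.inr_mul ℂ a b

theorem decomp (x : UU A) :
    x = (WithLp.ofLp x).fst • (1 : UU A) + inc A (WithLp.ofLp x).snd := by
  apply (WithLp.unitizationAlgEquiv ℂ (𝕜 := ℂ) (A := A)).injective
  rw [map_add, map_smul, map_one]
  change WithLp.ofLp x = _ + ((WithLp.ofLp x).snd : Unitization ℂ A)
  ext <;> simp

theorem main_nonunital [CompleteSpace A]
    (h : ∀ (X : Type) [NormedAddCommGroup X] [NormedSpace ℂ X] [CompleteSpace X]
          (L R : A →L[ℂ] X →L[ℂ] X),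
          (∀ a b : A, L (a * b) = (L a).comp (L b)) →
          (∀ a b : A, R (a * b) = (R b).comp (R a)) →
          (∀ a b : A, (L a).comp (R b) = (R b).comp (L a)) →
          ∀ D : A →L[ℂ] X, (∀ a b : A, D (a * b) = L a (D b) + R b (D a)) →
            ∃ C : ℝ, ∀ F : Finset A, ∀ ε : ℝ, 0 < ε → ∃ ξ : X,
              (∀ a : A, ‖L a ξ - R a ξ‖ ≤ C * ‖a‖) ∧
                ∀ a ∈ F, ‖D a - (L a ξ - R a ξ)‖ < ε)
    (J : Submodule ℂ A) (hJ : ∀ a x : A, x ∈ J → a * x ∈ J ∧ x * a ∈ J)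
    (hc : IsClosed (J : Set A)) (hf : FiniteDimensional ℂ (A ⧸ J)) :
    ∃ C : ℝ, ∀ F : Finset A, (∀ x ∈ F, x ∈ J) → ∀ ε : ℝ, 0 < ε →
      ∃ e ∈ J, ‖e‖ ≤ C ∧ ∀ x ∈ F, ‖e * x - x‖ < ε ∧ ‖x * e - x‖ < ε := by
  classical
  let i : A →L[ℂ] UU A := (inc A).toContinuousLinearMap
  have hi : ∀ a, i a = inc A a := fun _ => rfl
  have H : Hyp (UU A) := by
    intro X _ _ _ L R hL1 hR1 hL hR hLR D hD
    obtain ⟨C, hC⟩ := h X (L.comp i) (R.comp i)
      (by intro a b; simp only [ContinuousLinearMap.comp_apply, hi, inc_mul, hL])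
      (by intro a b; simp only [ContinuousLinearMap.comp_apply, hi, inc_mul, hR])
      (by intro a b; simp only [ContinuousLinearMap.comp_apply, hi, hLR]) (D.comp i)
      (by intro a b; simp only [ContinuousLinearMap.comp_apply, hi, inc_mul, hD])
    have hD1 : D 1 = 0 := by
      have := hD 1 1
      rw [mul_one, hL1, hR1] at this
      simpa using this
    refine ⟨|C|, fun F ε hε => ?_⟩
    obtain ⟨ξ, h1, h2⟩ := hC (F.image fun x => (WithLp.ofLp x).snd) ε hε
    have e1 : ∀ x : UU A, L x ξ - R x ξ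
        = L (inc A (WithLp.ofLp x).snd) ξ - R (inc A (WithLp.ofLp x).snd) ξ := by
      intro x
      conv_lhs => rw [decomp x]
      simp only [map_add, map_smul, add_apply, smul_apply, hL1, hR1]
      abel
    have e2 : ∀ x : UU A, D x = D (inc A (WithLp.ofLp x).snd) := by
      intro x
      conv_lhs => rw [decomp x]
      simp only [map_add, map_smul, hD1, smul_zero, zero_add]
    refine ⟨ξ, fun x => ?_, fun x hx => ?_⟩
    · rw [e1]
      refine (h1 _).trans ?_
      rw [WithLp.unitization_norm_def]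
      have := le_abs_self C
      have := abs_nonneg C
      nlinarith [norm_nonneg (WithLp.ofLp x).fst, norm_nonneg (WithLp.ofLp x).snd]
    · rw [e1, e2]
      exact h2 _ (Finset.mem_image_of_mem _ hx)
  let J' : Submodule ℂ (UU A) := J.map (inc A).toLinearMap
  have hJ' : ∀ a x : UU A, x ∈ J' → a * x ∈ J' ∧ x * a ∈ J' := by
    rintro a _ ⟨y, hy, rfl⟩
    rw [decomp a]
    change _ * inc A y ∈ J' ∧ inc A y * _ ∈ J'
    rw [add_mul, mul_add, smul_mul_assoc, mul_smul_comm, one_mul, mul_one, ← inc_mul, ← inc_mul]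
    exact ⟨J'.add_mem (J'.smul_mem _ ⟨y, hy, rfl⟩) ⟨_, (hJ _ y hy).1, rfl⟩,
      J'.add_mem (J'.smul_mem _ ⟨y, hy, rfl⟩) ⟨_, (hJ _ y hy).2, rfl⟩⟩
  have hc' : IsClosed (J' : Set (UU A)) := (inc A).isometry.isClosedEmbedding.isClosedMap _ hc
  have hf' : FiniteDimensional ℂ (UU A ⧸ J') := by
    let f : (ℂ × (A ⧸ J)) →ₗ[ℂ] (UU A ⧸ J') :=
      LinearMap.coprod (LinearMap.toSpanSingleton ℂ _ (J'.mkQ 1))
        (J.mapQ J' (inc A).toLinearMap (fun y hy => ⟨y, hy, rfl⟩))
    refine Module.Finite.of_surjective f fun q => ?_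
    obtain ⟨x, rfl⟩ := J'.mkQ_surjective q
    refine ⟨((WithLp.ofLp x).fst, J.mkQ (WithLp.ofLp x).snd), ?_⟩
    conv_rhs => rw [decomp x, map_add, map_smul]
    rfl
  obtain ⟨C, hC⟩ := main_unital H J' hJ' hc' hf'
  refine ⟨C, fun F hF ε hε => ?_⟩
  obtain ⟨_, ⟨e, he, rfl⟩, h1, h2⟩ := hC (F.image (inc A)) (by
    intro x hx
    obtain ⟨y, hy, rfl⟩ := Finset.mem_image.1 hx
    exact ⟨y, hF y hy, rfl⟩) ε hε
  refine ⟨e, he, ?_, fun x hx => ?_⟩
  · rw [← (inc A).norm_map]; exact h1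
  · have := h2 _ (Finset.mem_image_of_mem _ hx)
    rw [← (inc A).norm_map (e * x - x), ← (inc A).norm_map (x * e - x), map_sub, map_sub,
      inc_mul, inc_mul]
    exact this

end Pool.Agent.P.MP_086137_an
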