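import Pool.Agent.P.MP_086137_an.NonUnital

set_option autoImplicit false
set_option maxSynthPendingDepth 3
set_option linter.dupNamespace false

/-! A complemented ideal whose quotient has a diagonal: from the ideal to the algebra. -/

namespace Pool.Agent.P.MP_086137_an

open Filter Topology

/-- Bounded approximate contractibility with bundled maps. -/
def Hyp0 (A : Type) [NonUnitalNormedRing A] [NormedSpace ℂ A] : Prop :=
  ∀ (X : Type) [NormedAddCommGroup X] [NormedSpace ℂ X] [CompleteSpace X]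
    (L R : A →L[ℂ] X →L[ℂ] X),
    (∀ a b : A, L (a * b) = (L a).comp (L b)) →
    (∀ a b : A, R (a * b) = (R b).comp (R a)) →
    (∀ a b : A, (L a).comp (R b) = (R b).comp (L a)) →
    ∀ D : A →L[ℂ] X, (∀ a b : A, D (a * b) = L a (D b) + R b (D a)) →
      ∃ C : ℝ, ∀ F : Finset A, ∀ ε : ℝ, 0 < ε → ∃ ξ : X,
        (∀ a : A, ‖L a ξ - R a ξ‖ ≤ C * ‖a‖) ∧ ∀ a ∈ F, ‖D a - (L a ξ - R a ξ)‖ < ε

theorem bound_of_homog {E F G : Type} [NormedAddCommGroup E] [NormedSpace ℂ E]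
    [NormedAddCommGroup F] [NormedSpace ℂ F] [NormedAddCommGroup G] [NormedSpace ℂ G]
    (f : E → F → G) (hc : Continuous fun p : E × F => f p.1 p.2)
    (h1 : ∀ (z : ℂ) x y, f (z • x) y = z • f x y) (h2 : ∀ (z : ℂ) x y, f x (z • y) = z • f x y) :
    ∃ K, 0 ≤ K ∧ ∀ x y, ‖f x y‖ ≤ K * ‖x‖ * ‖y‖ := by
  have z1 : ∀ y, f 0 y = 0 := fun y => by simpa using h1 0 0 y
  have z2 : ∀ x, f x 0 = 0 := fun x => by simpa using h2 0 x 0
  obtain ⟨r, hr, h⟩ := Metric.continuousAt_iff.1 (hc.continuousAt (x := 0)) 1 one_pos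
  refine ⟨(2 / r) ^ 2, by positivity, fun x y => ?_⟩
  rcases eq_or_ne x 0 with rfl | hx
  · simp [z1]
  rcases eq_or_ne y 0 with rfl | hy
  · simp [z2]
  have hx' := norm_pos_iff.2 hx
  have hy' := norm_pos_iff.2 hy
  have n : ∀ s : ℝ, 0 < s → ‖((r / 2 / s : ℝ) : ℂ)‖ = r / 2 / s := fun s hs => by
    rw [Complex.norm_real, Real.norm_of_nonneg (by positivity)]
  have := @h (((r / 2 / ‖x‖ : ℝ) : ℂ) • x, ((r / 2 / ‖y‖ : ℝ) : ℂ) • y) (by
    rw [dist_zero_right, Prod.norm_def, norm_smul, norm_smul, n _ hx', n _ hy',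
      div_mul_cancel₀ _ hx'.ne', div_mul_cancel₀ _ hy'.ne', max_self]
    linarith)
  simp only [h1, h2, Prod.fst_zero, z1, dist_zero_right, norm_smul, n _ hx', n _ hy'] at this
  calc ‖f x y‖ = (2 / r) ^ 2 * ‖x‖ * ‖y‖ * (r / 2 / ‖y‖ * (r / 2 / ‖x‖ * ‖f x y‖)) := by
        field_simp
    _ ≤ (2 / r) ^ 2 * ‖x‖ * ‖y‖ * 1 := by gcongr; linarith [this.le]
    _ = _ := mul_one _

/-- A complemented ideal of a unital algebra with a lifted diagonal of the quotient. -/
structure Split (A J : Type) [NormedRing A] [NormedAlgebra ℂ A] [NonUnitalNormedRing J]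
    [NormedSpace ℂ J] where
  i : J →L[ℂ] A
  P : A →L[ℂ] J
  mul : ∀ x y, i (x * y) = i x * i y
  Pi : ∀ x, P (i x) = x
  left : ∀ a x, i (P (a * i x)) = a * i x
  right : ∀ a x, i (P (i x * a)) = i x * a
  d : ℕ
  u : Fin d → A
  c : Fin d → A
  w : J
  one : ∑ k, u k * c k + i w = 1
  diag : ∀ β : A →ₗ[ℂ] A →ₗ[ℂ] ℂ, (∀ y x, β (i y) x = 0) → (∀ y x, β x (i y) = 0) →
    ∀ a, ∑ k, β (a * u k) (c k) = ∑ k, β (u k) (c k * a)

namespace Split

variable {A J : Type} [NormedRing A] [NormedAlgebra ℂ A] [NonUnitalNormedRing J]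
  [NormedSpace ℂ J] (S : Split A J)

theorem comm {Z : Type} [AddCommGroup Z] [Module ℂ Z] (β : A →ₗ[ℂ] A →ₗ[ℂ] Z) (a : A) :
    ∑ k, (β (a * S.u k) (S.c k) - β (S.u k) (S.c k * a)) =
      ∑ k, (β (S.i (S.P (a * S.u k))) (S.c k) - β (S.i (S.P (S.u k))) (S.c k * a) +
        (β (a * S.u k - S.i (S.P (a * S.u k))) (S.i (S.P (S.c k))) -
          β (S.u k - S.i (S.P (S.u k))) (S.i (S.P (S.c k * a))))) := by
  let Q : A →ₗ[ℂ] A := LinearMap.id - (S.i : J →ₗ[ℂ] A).comp (S.P : A →ₗ[ℂ] J)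
  have hQ : ∀ x, Q x = x - S.i (S.P x) := fun _ => rfl
  have hQi : ∀ y, Q (S.i y) = 0 := fun y => by rw [hQ, S.Pi, sub_self]
  have h : ∑ k, β (Q (a * S.u k)) (Q (S.c k)) = ∑ k, β (Q (S.u k)) (Q (S.c k * a)) := by
    rw [← sub_eq_zero, ← Module.forall_dual_apply_eq_zero_iff ℂ]
    intro l
    have := S.diag ((β.compl₁₂ Q Q).compr₂ l) (fun y x => by simp [hQi]) (fun y x => by simp [hQi]) a
    simpa [sub_eq_zero] using this
  rw [← sub_eq_zero] at h ⊢
  rw [← h, ← Finset.sum_sub_distrib, ← Finset.sum_sub_distrib]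
  refine Finset.sum_congr rfl fun k _ => ?_
  simp only [hQ, map_sub, LinearMap.sub_apply]
  abel

include S in
theorem up (h : Hyp0 J) : Hyp A := by
  classical
  intro X _ _ _ L R hL1 hR1 hL hR hLR D hD
  have hL' : ∀ a b x, L (a * b) x = L a (L b x) := fun a b x => by rw [hL]; rfl
  have hR' : ∀ a b x, R (a * b) x = R b (R a x) := fun a b x => by rw [hR]; rfl
  have hLR' : ∀ a b x, L a (R b x) = R b (L a x) := fun a b x =>
    congrArg (fun T : X →L[ℂ] X => T x) (hLR a b)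
  obtain ⟨C, hC⟩ := h X (L.comp S.i) (R.comp S.i)
    (fun a b => by simp only [ContinuousLinearMap.comp_apply, S.mul, hL])
    (fun a b => by simp only [ContinuousLinearMap.comp_apply, S.mul, hR])
    (fun a b => by simp only [ContinuousLinearMap.comp_apply, hLR]) (D.comp S.i)
    (fun a b => by simp only [ContinuousLinearMap.comp_apply, S.mul, hD])
  -- the error term as a function of the restriction of a derivation to the ideal
  let g : (J → X) → J → A → X := fun t y x => t (S.P (S.i y * x)) - R x (t y)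
  let E : (J → X) → A → X := fun t a => g t S.w a -
    ∑ k, (g t (S.P (a * S.u k)) (S.c k) - g t (S.P (S.u k)) (S.c k * a) +
      (L (a * S.u k - S.i (S.P (a * S.u k))) (t (S.P (S.c k))) -
        L (S.u k - S.i (S.P (S.u k))) (t (S.P (S.c k * a)))))
  have key : ∀ ξ : X, ∃ η : X, ∀ a, D a - (L a η - R a η) =
      E (fun y => D (S.i y) - (L (S.i y) ξ - R (S.i y) ξ)) a := by
    intro ξ
    let δ : A →L[ℂ] X := D - (L.flip ξ - R.flip ξ)
    have hδ : ∀ a, δ a = D a - (L a ξ - R a ξ) := fun _ => rfl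
    have hd : ∀ a b, δ (a * b) = L a (δ b) + R b (δ a) := fun a b => by
      simp only [hδ, hD, hL', hR', map_sub, hLR']
      abel
    let β : A →ₗ[ℂ] A →ₗ[ℂ] X := LinearMap.mk₂ ℂ (fun x y => L x (δ y)) (by simp) (by simp)
      (by simp) (by simp)
    have hβ : ∀ x y, β x y = L x (δ y) := fun _ _ => rfl
    have hg : ∀ y x, g (fun y => δ (S.i y)) y x = L (S.i y) (δ x) := fun y x => by
      simp only [g, S.right, hd, add_sub_cancel_right]
    refine ⟨ξ + ∑ k, L (S.u k) (δ (S.c k)), fun a => ?_⟩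
    have h1 := S.comm β a
    change _ = E (fun y => δ (S.i y)) a
    simp only [E, hg]
    simp only [hβ] at h1
    rw [← h1]
    have h2 : L (S.i S.w) (δ a) = δ a - ∑ k, L (S.u k * S.c k) (δ a) := by
      rw [eq_sub_iff_add_eq, add_comm, ← sum_apply, ← map_sum, ← add_apply,
        ← map_add, S.one, hL1]
    have h3 : ∑ k, (L (a * S.u k) (δ (S.c k)) - L (S.u k) (δ (S.c k * a))) =
        ∑ k, L a (L (S.u k) (δ (S.c k))) - ∑ k, R a (L (S.u k) (δ (S.c k))) -
          ∑ k, L (S.u k * S.c k) (δ a) := by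
      rw [← Finset.sum_sub_distrib, ← Finset.sum_sub_distrib]
      refine Finset.sum_congr rfl fun k _ => ?_
      rw [hd, map_add, hLR', hL', hL']
      abel
    rw [h2, h3, hδ a, map_add, map_add, map_sum, map_sum]
    abel
  -- continuity of the error term for pointwise convergence
  have hcont : ∀ a, ∀ ε > 0, ∃ G : Finset J, ∃ η > 0, ∀ t : J → X,
      (∀ y ∈ G, ‖t y‖ < η) → ‖E t a‖ < ε := by
    intro a ε hε
    have hc : Continuous fun t : J → X => E t a := by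
      simp only [E, g]
      fun_prop
    have h0 : E 0 a = 0 := by simp [E, g]
    have h1 : {t : J → X | ‖E t a‖ < ε} ∈ 𝓝 (0 : J → X) :=
      (isOpen_lt hc.norm continuous_const).mem_nhds (by simpa [h0] using hε)
    rw [nhds_pi, mem_pi] at h1
    obtain ⟨I, hI, V, hV, hsub⟩ := h1
    have h2 : (⋂ y ∈ I, V y) ∈ 𝓝 (0 : X) := (biInter_mem hI).2 fun y _ => hV y
    obtain ⟨η, hη, h3⟩ := Metric.mem_nhds_iff.1 h2
    exact ⟨hI.toFinset, η, hη, fun t ht => hsub fun y hy =>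
      Set.mem_iInter₂.1 (h3 (mem_ball_zero_iff.2 (ht y (hI.mem_toFinset.2 hy)))) y hy⟩
  obtain ⟨K, hK0, hK⟩ := bound_of_homog (fun (t : J →L[ℂ] X) (a : A) => E t a)
    (by simp only [E, g]; fun_prop)
    (fun z t a => by
      simp only [E, g, smul_apply, map_smul, smul_sub, smul_add, Finset.smul_sum])
    (fun z t a => by
      simp only [E, g, mul_smul_comm, smul_mul_assoc, smul_apply, sub_apply, map_sub, map_smul,
        smul_sub, smul_add, Finset.smul_sum])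
  refine ⟨‖D‖ + K * (‖D.comp S.i‖ + |C|), fun F ε hε => ?_⟩
  choose G η hη hG using fun a => hcont a ε hε
  obtain ⟨θ, hθ, hθF⟩ : ∃ θ > 0, ∀ a ∈ F, θ ≤ η a := by
    refine (((eventually_all_finset F).2 fun a _ => ?_).and self_mem_nhdsWithin
      (f := 𝓝[>] (0:ℝ))).exists.imp fun θ h => ⟨h.2, h.1⟩
    exact nhdsWithin_le_nhds (eventually_le_nhds (hη a))
  obtain ⟨ξ, h1, h2⟩ := hC (F.biUnion G) θ hθ
  obtain ⟨ζ, hζ⟩ := key ξ
  refine ⟨ζ, fun a => ?_, fun a ha => ?_⟩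
  · let t : J →L[ℂ] X := D.comp S.i - ((L.comp S.i).flip ξ - (R.comp S.i).flip ξ)
    have ht : ‖t‖ ≤ ‖D.comp S.i‖ + |C| := by
      refine (norm_sub_le _ _).trans (add_le_add le_rfl ?_)
      exact ContinuousLinearMap.opNorm_le_bound _ (abs_nonneg C) fun y =>
        (h1 y).trans (by gcongr; exact le_abs_self C)
    have e : L a ζ - R a ζ = D a - E t a := by
      rw [show E t a = _ from (hζ a).symm]; abel
    rw [e]
    calc _ ≤ ‖D a‖ + ‖E t a‖ := norm_sub_le _ _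
      _ ≤ ‖D‖ * ‖a‖ + K * ‖t‖ * ‖a‖ := add_le_add (D.le_opNorm a) (hK t a)
      _ ≤ ‖D‖ * ‖a‖ + K * (‖D.comp S.i‖ + |C|) * ‖a‖ := by gcongr
      _ = _ := by ring
  · rw [hζ]
    exact hG a _ fun y hy => (h2 y (Finset.mem_biUnion.2 ⟨a, ha, hy⟩)).trans_le (hθF a ha)

end Split

end Pool.Agent.P.MP_086137_an
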