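import Pool.Agent.P.MP_086137_an.ThreeA

set_option autoImplicit false
set_option maxSynthPendingDepth 3
set_option linter.dupNamespace false

/-! A complemented ideal whose quotient has a diagonal: from the algebra to the ideal. -/

namespace Pool.Agent.P.MP_086137_an

open Filter Topology ContinuousLinearMap

/-- Bounded bilinear maps. -/
abbrev Bl (J Y : Type) [NormedAddCommGroup J] [NormedSpace ℂ J] [NormedAddCommGroup Y]
    [NormedSpace ℂ Y] : Type := J →L[ℂ] J →L[ℂ] Y

namespace Split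

variable {A J : Type} [NormedRing A] [NormedAlgebra ℂ A] [NonUnitalNormedRing J]
  [NormedSpace ℂ J] (S : Split A J)

theorem inj {x y : J} (h : S.i x = S.i y) : x = y := by rw [← S.Pi x, h, S.Pi]

/-- Left multiplication of the ideal by the algebra. -/
noncomputable def lm : A →L[ℂ] J →L[ℂ] J :=
  (compL ℂ J A J S.P).comp (((compL ℂ J A A).flip S.i).comp (ContinuousLinearMap.mul ℂ A))

/-- Right multiplication of the ideal by the algebra. -/
noncomputable def rm : A →L[ℂ] J →L[ℂ] J :=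
  (compL ℂ J A J S.P).comp (((compL ℂ J A A).flip S.i).comp (ContinuousLinearMap.mul ℂ A).flip)

theorem i_lm (a : A) (x : J) : S.i (S.lm a x) = a * S.i x := S.left a x

theorem i_rm (a : A) (x : J) : S.i (S.rm a x) = S.i x * a := S.right a x

variable (Y : Type) [NormedAddCommGroup Y] [NormedSpace ℂ Y]

/-- Translation of the first variable. -/
noncomputable def tL : A →L[ℂ] (J →L[ℂ] J →L[ℂ] Y) →L[ℂ] (J →L[ℂ] J →L[ℂ] Y) :=
  (compL ℂ J J (J →L[ℂ] Y)).flip.comp S.lm

/-- Translation of the second variable. -/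
noncomputable def tR : A →L[ℂ] (J →L[ℂ] J →L[ℂ] Y) →L[ℂ] (J →L[ℂ] J →L[ℂ] Y) :=
  (compL ℂ J (J →L[ℂ] Y) (J →L[ℂ] Y)).comp ((compL ℂ J J Y).flip.comp S.rm)

variable {Y}

theorem tL_apply (a : A) (β : J →L[ℂ] J →L[ℂ] Y) (x y : J) :
    S.tL Y a β x y = β (S.lm a x) y := rfl

theorem tR_apply (a : A) (β : J →L[ℂ] J →L[ℂ] Y) (x y : J) :
    S.tR Y a β x y = β x (S.rm a y) := rfl

/-- Composition with an operator on the target. -/
noncomputable def post (T : Y →L[ℂ] Y) (β : J →L[ℂ] J →L[ℂ] Y) : J →L[ℂ] J →L[ℂ] Y :=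
  (compL ℂ J Y Y T).comp β

theorem post_apply (T : Y →L[ℂ] Y) (β : J →L[ℂ] J →L[ℂ] Y) (x y : J) :
    post T β x y = T (β x y) := rfl

variable {ι : Type} {l : Filter ι} {e : ι → J} {K : ℝ}

theorem sq_left (hK : ∀ n, ‖e n‖ ≤ K) (h : ∀ y, Tendsto (fun n => y * e n) l (𝓝 y)) (y : J) (x : A) :
    Tendsto (fun n => S.i y * (1 - S.i (e n) * S.i (e n)) * x) l (𝓝 0) := by
  have h1 : Tendsto (fun n => y - y * e n) l (𝓝 0) := by
    simpa using (tendsto_const_nhds (x := y)).sub (h y)
  have h2 : Tendsto (fun n => (y - y * e n) * e n) l (𝓝 0) :=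
    squeeze_zero_norm (fun n => (norm_mul_le _ _).trans
      (mul_le_mul_of_nonneg_left (hK n) (norm_nonneg _))) (by simpa using h1.norm.mul_const K)
  have h3 := ((S.i.continuous.tendsto _).comp (h1.add h2)).mul_const x
  simp only [add_zero, map_zero, zero_mul] at h3
  refine h3.congr fun n => ?_
  simp only [Function.comp, map_add, map_sub, S.mul]
  noncomm_ring

theorem sq_right (hK : ∀ n, ‖e n‖ ≤ K) (h : ∀ y, Tendsto (fun n => e n * y) l (𝓝 y)) (y : J)
    (x : A) : Tendsto (fun n => x * (1 - S.i (e n) * S.i (e n)) * S.i y) l (𝓝 0) := by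
  have h1 : Tendsto (fun n => y - e n * y) l (𝓝 0) := by
    simpa using (tendsto_const_nhds (x := y)).sub (h y)
  have h2 : Tendsto (fun n => e n * (y - e n * y)) l (𝓝 0) :=
    squeeze_zero_norm (fun n => (norm_mul_le _ _).trans
      (mul_le_mul_of_nonneg_right (hK n) (norm_nonneg _))) (by simpa using h1.norm.const_mul K)
  have h3 := ((S.i.continuous.tendsto _).comp (h1.add h2)).const_mul x
  simp only [add_zero, map_zero, mul_zero] at h3
  refine h3.congr fun n => ?_
  simp only [Function.comp, map_add, map_sub, S.mul]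
  noncomm_ring

theorem tendsto_of_i {f : ι → J} (h : Tendsto (fun n => S.i (f n)) l (𝓝 0)) :
    Tendsto f l (𝓝 0) := by
  simpa [Function.comp_def, S.Pi] using (S.P.continuous.tendsto _).comp h

/-- An approximate diagonal acting on bilinear maps of the ideal. -/
theorem exists_avg [CompleteSpace Y] (h : Hyp A) (hK : ∀ n, ‖e n‖ ≤ K)
    (hl : ∀ y, Tendsto (fun n => e n * y) l (𝓝 y)) (hr : ∀ y, Tendsto (fun n => y * e n) l (𝓝 y))
    (j : J →L[ℂ] Y) (p : Y →L[ℂ] J) (hp : ∀ x, p (j x) = x) (π : J →L[ℂ] J →L[ℂ] Y)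
    (hπ : ∀ x y, π x y = j (x * y)) :
    ∃ C K1 : ℝ, 0 ≤ C ∧ 0 ≤ K1 ∧ ∀ F : Finset A, ∀ ε : ℝ, 0 < ε →
      ∃ M : (J →L[ℂ] J →L[ℂ] Y) →L[ℂ] (J →L[ℂ] J →L[ℂ] Y),
        (∀ T β, M (post T β) = post T (M β)) ∧
        (∀ a, ‖M.comp (S.tL Y a) - M.comp (S.tR Y a)‖ ≤ C * ‖a‖) ∧
        (∀ a ∈ F, ‖M.comp (S.tL Y a) - M.comp (S.tR Y a)‖ < ε) ∧
        (∀ᶠ n in l, ‖p (M π (e n) (e n))‖ ≤ K1) ∧
        (∀ y, Tendsto (fun n => y - y * p (M π (e n) (e n))) l (𝓝 0)) ∧
        ∀ y, Tendsto (fun n => y - p (M π (e n) (e n)) * y) l (𝓝 0) := by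
  let L : A →L[ℂ] (Bl J Y →L[ℂ] Bl J Y) →L[ℂ] Bl J Y →L[ℂ] Bl J Y := (compL ℂ (Bl J Y) (Bl J Y) (Bl J Y)).flip.comp (S.tL Y)
  let R : A →L[ℂ] (Bl J Y →L[ℂ] Bl J Y) →L[ℂ] Bl J Y →L[ℂ] Bl J Y := (compL ℂ (Bl J Y) (Bl J Y) (Bl J Y)).flip.comp (S.tR Y)
  have hL : ∀ a (M : Bl J Y →L[ℂ] Bl J Y) β, L a M β = M (S.tL Y a β) := fun _ _ _ => rfl
  have hR : ∀ a (M : Bl J Y →L[ℂ] Bl J Y) β, R a M β = M (S.tR Y a β) := fun _ _ _ => rfl
  let N : Submodule ℂ (Bl J Y →L[ℂ] Bl J Y) :=
    { carrier := {M | ∀ T β, M (post T β) = post T (M β)}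
      add_mem' := fun {M M'} h1 h2 T β => by
        rw [add_apply, add_apply, h1, h2]; ext; simp [post_apply]
      zero_mem' := fun T β => by ext; simp [post_apply]
      smul_mem' := fun z M h1 T β => by
        rw [smul_apply, smul_apply, h1]; ext; simp [post_apply] }
  let Z : Submodule ℂ (Bl J Y →L[ℂ] Bl J Y) :=
    { carrier := {M | Tendsto (fun n => M π (e n) (e n)) l (𝓝 0)}
      add_mem' := fun {M M'} h1 h2 => by simpa using Tendsto.add h1 h2
      zero_mem' := by simpa using tendsto_const_nhds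
      smul_mem' := fun z M h1 => by simpa using Tendsto.const_smul h1 z }
  have hev : ∀ (M : Bl J Y →L[ℂ] Bl J Y) n, ‖M π (e n) (e n)‖ ≤ ‖M‖ * (‖π‖ * |K| * |K|) := fun M n => by
    have := (hK n).trans (le_abs_self K)
    calc _ ≤ ‖M π‖ * ‖e n‖ * ‖e n‖ := le_opNorm₂ _ _ _
      _ ≤ ‖M‖ * ‖π‖ * |K| * |K| := by gcongr; exact M.le_opNorm π
      _ = _ := by ring
  have hN : IsClosed (N : Set (Bl J Y →L[ℂ] Bl J Y)) := by
    change IsClosed {M : Bl J Y →L[ℂ] Bl J Y | ∀ T β, M (post T β) = post T (M β)}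
    simp only [Set.ofPred_forall]
    refine isClosed_iInter fun T => isClosed_iInter fun β => isClosed_eq (by fun_prop) ?_
    exact (compL ℂ J (J →L[ℂ] Y) (J →L[ℂ] Y) (compL ℂ J Y Y T)).continuous.comp
      (f := fun M : Bl J Y →L[ℂ] Bl J Y => M β) (by fun_prop)
  have hZ : IsClosed (Z : Set (Bl J Y →L[ℂ] Bl J Y)) := by
    refine isClosed_of_closure_subset fun M hM => NormedAddGroup.tendsto_nhds_zero.2 fun ε hε => ?_
    have hc : 0 < ‖π‖ * |K| * |K| + 1 := by positivity
    obtain ⟨M', h1, h2⟩ := Metric.mem_closure_iff.1 hM (ε / 2 / (‖π‖ * |K| * |K| + 1))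
      (by positivity)
    filter_upwards [NormedAddGroup.tendsto_nhds_zero.1 h1 _ (half_pos hε)] with n hn
    have h3 := hev (M - M') n
    rw [dist_eq_norm, lt_div_iff₀ hc] at h2
    have h4 := norm_add_le ((M - M') π (e n) (e n)) (M' π (e n) (e n))
    simp only [sub_apply, sub_add_cancel] at h3 h4
    nlinarith [norm_nonneg (M - M')]
  have hLN : ∀ a, ∀ M ∈ N, L a M ∈ N := fun a M hM T β => hM T (S.tL Y a β)
  have hRN : ∀ a, ∀ M ∈ N, R a M ∈ N := fun a M hM T β => hM T (S.tR Y a β)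
  have eL : ∀ a, S.tL Y a π = post (j.comp ((S.lm a).comp p)) π := fun a => by
    ext x y
    simp only [tL_apply, post_apply, hπ, comp_apply, hp]
    congr 1
    apply S.inj
    simp only [S.mul, i_lm, mul_assoc]
  have eR : ∀ a, S.tR Y a π = post (j.comp ((S.rm a).comp p)) π := fun a => by
    ext x y
    simp only [tR_apply, post_apply, hπ, comp_apply, hp]
    congr 1
    apply S.inj
    simp only [S.mul, i_rm, mul_assoc]
  have hT : ∀ (T : Y →L[ℂ] Y), ∀ M ∈ N ⊓ Z, Tendsto (fun n => M (post T π) (e n) (e n)) l (𝓝 0) :=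
    fun T M hM => by
      rw [hM.1 T π]
      simpa [Function.comp_def, post_apply] using (T.continuous.tendsto _).comp hM.2
  let m : Bl J Y →L[ℂ] Bl J Y := ∑ k, L (S.u k) (R (S.c k) (ContinuousLinearMap.id ℂ (Bl J Y))) +
    L (S.i S.w) (ContinuousLinearMap.id ℂ (Bl J Y))
  have hmN : m ∈ N := N.add_mem (N.sum_mem fun k _ => hLN _ _ (hRN _ _ fun _ _ => rfl))
    (hLN _ _ fun _ _ => rfl)
  have hm : ∀ (β : Bl J Y) x y, m β x y =
      ∑ k, β (S.lm (S.u k) x) (S.rm (S.c k) y) + β (S.lm (S.i S.w) x) y := fun β x y => by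
    simp only [m, add_apply, sum_apply, hL, hR, id_apply, tL_apply, tR_apply]
  have hU : ∀ n, S.i (p (m π (e n) (e n))) = 1 -
      (∑ k, S.u k * (1 - S.i (e n) * S.i (e n)) * S.c k +
        S.i S.w * (1 - S.i (e n) * S.i (e n)) * 1) := fun n => by
    simp only [hm, hπ, map_add, map_sum, hp, S.mul, i_lm, i_rm, mul_sub, sub_mul, mul_one,
      Finset.sum_sub_distrib, mul_assoc]
    conv_rhs => rw [← S.one]
    abel
  have hcomm : ∀ a, L a m - R a m ∈ N ⊓ Z := fun a => by
    refine ⟨N.sub_mem (hLN _ _ hmN) (hRN _ _ hmN), ?_⟩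
    have h1 : Tendsto (fun n => a * S.i (p (m π (e n) (e n))) - S.i (p (m π (e n) (e n))) * a) l
        (𝓝 0) := by
      have h2 := fun n => S.comm (LinearMap.mk₂ ℂ
        (fun x y : A => x * (1 - S.i (e n) * S.i (e n)) * y) (by simp [add_mul]) (by simp)
        (by simp [mul_add]) (by simp)) a
      simp only [LinearMap.mk₂_apply] at h2
      have h3 := tendsto_finsetSum Finset.univ fun k _ =>
        ((S.sq_left hK hr (S.P (a * S.u k)) (S.c k)).sub
          (S.sq_left hK hr (S.P (S.u k)) (S.c k * a))).add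
        ((S.sq_right hK hl (S.P (S.c k)) (a * S.u k - S.i (S.P (a * S.u k)))).sub
          (S.sq_right hK hl (S.P (S.c k * a)) (S.u k - S.i (S.P (S.u k)))))
      simp only [← h2] at h3
      have h4 := ((S.sq_left hK hr S.w a).sub ((S.sq_left hK hr S.w 1).const_mul a)).sub h3
      simp only [sub_self, add_zero, Finset.sum_const_zero, mul_zero] at h4
      refine h4.congr fun n => ?_
      rw [hU]
      generalize 1 - S.i (e n) * S.i (e n) = t
      simp only [mul_sub, sub_mul, mul_add, add_mul, Finset.mul_sum, Finset.sum_mul, mul_one,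
        one_mul, Finset.sum_sub_distrib, mul_assoc]
      abel
    have h5 : Tendsto (fun n => S.lm a (p (m π (e n) (e n))) - S.rm a (p (m π (e n) (e n)))) l
        (𝓝 0) := S.tendsto_of_i (by simpa only [map_sub, i_lm, i_rm] using h1)
    have h6 := (j.continuous.tendsto _).comp h5
    rw [map_zero] at h6
    refine h6.congr fun n => ?_
    simp only [Function.comp, sub_apply, hL, hR, eL, eR, hmN _ π, post_apply, comp_apply, map_sub]
  obtain ⟨C, hC0, hC⟩ := sub_lemma h L R
    (fun M => by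
      ext β x y
      rw [hL]; congr 3; ext x y; rw [tL_apply]; congr 2; exact S.inj (by rw [i_lm, one_mul]))
    (fun M => by
      ext β x y
      rw [hR]; congr 3; ext x y; rw [tR_apply]; congr 1; exact S.inj (by rw [i_rm, mul_one]))
    (fun a b => by
      ext M β x y
      simp only [comp_apply, hL]; congr 3; ext x y; simp only [tL_apply]; congr 2
      exact S.inj (by simp only [i_lm, mul_assoc]))
    (fun a b => by
      ext M β x y
      simp only [comp_apply, hR]; congr 3; ext x y; simp only [tR_apply]; congr 1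
      exact S.inj (by simp only [i_rm, mul_assoc]))
    (fun a b => by ext M β x y; rfl) (N ⊓ Z) (hN.inter hZ)
    (fun a M hM => ⟨hLN a M hM.1, by
      change Tendsto (fun n => M (S.tL Y a π) (e n) (e n)) l _
      rw [eL]; exact hT _ M hM⟩)
    (fun a M hM => ⟨hRN a M hM.1, by
      change Tendsto (fun n => M (S.tR Y a π) (e n) (e n)) l _
      rw [eR]; exact hT _ M hM⟩) m hcomm
  refine ⟨C, ‖p‖ * (‖m‖ * (‖π‖ * |K| * |K|)) + 1, hC0, by positivity, fun F ε hε => ?_⟩
  obtain ⟨M, h1, h2, h3⟩ := hC F ε hε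
  have h4 : Tendsto (fun n => p (m π (e n) (e n)) - p (M π (e n) (e n))) l (𝓝 0) := by
    simpa [Function.comp_def] using (p.continuous.tendsto _).comp h1.2
  refine ⟨M, (show M ∈ N by simpa using N.sub_mem hmN h1.1), h2, h3, ?_, fun y => ?_, fun y => ?_⟩
  · filter_upwards [NormedAddGroup.tendsto_nhds_zero.1 h4 _ one_pos] with n hn
    have h5 := (p.le_opNorm _).trans (mul_le_mul_of_nonneg_left (hev m n) (norm_nonneg p))
    have h6 := norm_sub_norm_le (p (M π (e n) (e n))) (p (m π (e n) (e n)))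
    rw [norm_sub_rev] at h6
    linarith
  · have h5 : Tendsto (fun n => y - y * p (m π (e n) (e n))) l (𝓝 0) := by
      have h6 := (tendsto_finsetSum Finset.univ fun k _ =>
        S.sq_left hK hr (S.rm (S.u k) y) (S.c k)).add (S.sq_left hK hr (y * S.w) 1)
      simp only [Finset.sum_const_zero, add_zero] at h6
      refine S.tendsto_of_i (h6.congr fun n => ?_)
      rw [map_sub, S.mul y (p _), hU]
      generalize 1 - S.i (e n) * S.i (e n) = t
      simp only [i_rm, S.mul, mul_sub, mul_add, Finset.mul_sum, mul_one, mul_assoc]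
      abel
    have h6 := h5.add (h4.const_mul y)
    simp only [mul_zero, add_zero] at h6
    exact h6.congr fun n => by rw [mul_sub]; abel
  · have h5 : Tendsto (fun n => y - p (m π (e n) (e n)) * y) l (𝓝 0) := by
      have h6 := (tendsto_finsetSum Finset.univ fun k _ =>
        S.sq_right hK hl (S.lm (S.c k) y) (S.u k)).add (S.sq_right hK hl y (S.i S.w))
      simp only [Finset.sum_const_zero, add_zero] at h6
      refine S.tendsto_of_i (h6.congr fun n => ?_)
      rw [map_sub, S.mul (p _) y, hU]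
      generalize 1 - S.i (e n) * S.i (e n) = t
      simp only [i_lm, sub_mul, add_mul, Finset.sum_mul, mul_one, one_mul, mul_assoc]
      abel
    have h6 := h5.add (h4.mul_const y)
    simp only [zero_mul, add_zero] at h6
    exact h6.congr fun n => by rw [sub_mul]; abel

end Split

end Pool.Agent.P.MP_086137_an
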