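import Pool.Agent.P.MP_086137_an.ThreeB

set_option autoImplicit false
set_option maxSynthPendingDepth 3
set_option linter.dupNamespace false

namespace Pool.Agent.P.MP_086137_an

open Filter Topology ContinuousLinearMap

theorem exists_net {J : Type} [NonUnitalNormedRing J] {K : ℝ}
    (h : ∀ F : Finset J, ∀ ε : ℝ, 0 < ε →
      ∃ e, ‖e‖ ≤ K ∧ ∀ x ∈ F, ‖e * x - x‖ < ε ∧ ‖x * e - x‖ < ε) :
    ∃ e : Finset J × ℕ → J, (∀ n, ‖e n‖ ≤ K) ∧ (∀ y, Tendsto (fun n => e n * y) atTop (𝓝 y)) ∧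
      ∀ y, Tendsto (fun n => y * e n) atTop (𝓝 y) := by
  classical
  choose e h1 h2 using fun n : Finset J × ℕ => h n.1 (1 / (n.2 + 1)) (by positivity)
  have h3 : ∀ y : J, ∀ ε > (0:ℝ), ∀ᶠ n : Finset J × ℕ in atTop, y ∈ n.1 ∧ 1 / ((n.2:ℝ) + 1) ≤ ε := by
    intro y ε hε
    obtain ⟨N, hN⟩ := exists_nat_one_div_lt hε
    filter_upwards [eventually_ge_atTop (({y}, N) : Finset J × ℕ)] with n hn
    exact ⟨hn.1 (Finset.mem_singleton_self y), (Nat.one_div_le_one_div hn.2).trans hN.le⟩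
  refine ⟨e, h1, fun y => Metric.tendsto_nhds.2 fun ε hε => ?_,
    fun y => Metric.tendsto_nhds.2 fun ε hε => ?_⟩
  · filter_upwards [h3 y ε hε] with n hn
    rw [dist_eq_norm]
    exact (h2 n y hn.1).1.trans_le hn.2
  · filter_upwards [h3 y ε hε] with n hn
    rw [dist_eq_norm]
    exact (h2 n y hn.1).2.trans_le hn.2

theorem Split.down {A J : Type} [NormedRing A] [NormedAlgebra ℂ A] [NonUnitalNormedRing J]
    [NormedSpace ℂ J] [IsScalarTower ℂ J J] [SMulCommClass ℂ J J] [CompleteSpace J]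
    (S : Split A J) (h : Hyp A) {K : ℝ} (hb : ∀ F : Finset J, ∀ ε : ℝ, 0 < ε →
      ∃ e, ‖e‖ ≤ K ∧ ∀ x ∈ F, ‖e * x - x‖ < ε ∧ ‖x * e - x‖ < ε) : Hyp0 J := by
  classical
  intro X _ _ _ L R hL hR hLR D hD
  have hL' : ∀ a b x, L (a * b) x = L a (L b x) := fun a b x => by rw [hL]; rfl
  have hLR' : ∀ a b x, L a (R b x) = R b (L a x) := fun a b x =>
    congrArg (fun T : X →L[ℂ] X => T x) (hLR a b)
  obtain ⟨e, hK, hl, hr⟩ := exists_net hb
  have hK0 : 0 ≤ K := (norm_nonneg _).trans (hK (∅, 0))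
  let π : Bl J (X × J) := (compL ℂ J J (X × J) (inr ℂ X J)).comp (ContinuousLinearMap.mul ℂ J)
  let β : Bl J (X × J) :=
    (compL ℂ J X (X × J) (inl ℂ X J)).comp (((compL ℂ J X X).flip D).comp L)
  have hβ : ∀ x y, β x y = (L x (D y), 0) := fun _ _ => rfl
  have hπ : ∀ x y, π x y = (0, x * y) := fun _ _ => rfl
  obtain ⟨C, K1, hC0, hK1, hC⟩ := S.exists_avg h hK hl hr (inr ℂ X J) (snd ℂ X J)
    (fun _ => rfl) π fun _ _ => rfl
  have key : ∀ (M : Bl J (X × J) →L[ℂ] Bl J (X × J)),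
      (∀ T γ, M (Split.post T γ) = Split.post T (M γ)) → ∀ x f : J, ‖x‖ ≤ K → ‖f‖ ≤ K →
      ‖(M π x x).2‖ ≤ K1 → ∃ ξ : X, ∀ k, ‖D k - (L k ξ - R k ξ)‖ ≤
        ‖M.comp (S.tL _ (S.i k)) - M.comp (S.tR _ (S.i k))‖ * (‖β‖ * K * K) +
        (1 + ‖L‖ * K1) * ‖D‖ * ‖k - f * k‖ + ‖L‖ * ‖k - k * (M π x x).2‖ * (‖D‖ * K) +
        ‖L‖ * ‖f - (M π x x).2 * f‖ * (‖D‖ * ‖k‖) := by
    intro M hM x f hx hf hU
    set U := (M π x x).2
    refine ⟨(M β x x).1 - D f + L U (D f), fun k => ?_⟩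
    have e1 : S.tL _ (S.i k) β = Split.post ((inl ℂ X J).comp ((L k).comp (fst ℂ X J))) β := by
      refine ContinuousLinearMap.ext fun y => ContinuousLinearMap.ext fun z => ?_
      have : S.lm (S.i k) y = k * y := S.inj (by rw [S.i_lm, S.mul])
      simp [Split.tL_apply, Split.post_apply, hβ, this, hL']
    have e2 : S.tR _ (S.i k) β =
        Split.post ((inl ℂ X J).comp ((L.flip (D k)).comp (snd ℂ X J))) π +
        Split.post ((inl ℂ X J).comp ((R k).comp (fst ℂ X J))) β := by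
      refine ContinuousLinearMap.ext fun y => ContinuousLinearMap.ext fun z => ?_
      have : S.rm (S.i k) z = z * k := S.inj (by rw [S.i_rm, S.mul])
      simp [Split.tR_apply, Split.post_apply, hβ, hπ, this, hL', hD, hLR']
    set G := M.comp (S.tL _ (S.i k)) - M.comp (S.tR _ (S.i k)) with hG
    have e3 : (G β x x).1 = L k (M β x x).1 - (L U (D k) + R k (M β x x).1) := by
      simp only [hG, sub_apply, comp_apply, e1, e2, map_add, hM, add_apply, Split.post_apply]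
      simp [U]
    have e4 : D k - (L k ((M β x x).1 - D f + L U (D f)) - R k ((M β x x).1 - D f + L U (D f))) =
        -(G β x x).1 + (D (k - f * k) - L U (D (k - f * k))) + L (k - k * U) (D f) +
          L (f - U * f) (D k) := by
      simp only [e3, map_sub, map_add, hD, hL', sub_apply, hLR']
      abel
    rw [e4]
    have b1 : ‖-(G β x x).1‖ ≤ ‖G‖ * (‖β‖ * K * K) := by
      rw [norm_neg]
      calc _ ≤ ‖G β x x‖ := norm_fst_le _
        _ ≤ ‖G β‖ * ‖x‖ * ‖x‖ := le_opNorm₂ _ _ _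
        _ ≤ ‖G‖ * ‖β‖ * K * K := by gcongr; exact G.le_opNorm β
        _ = _ := by ring
    have b2 : ‖D (k - f * k) - L U (D (k - f * k))‖ ≤ (1 + ‖L‖ * K1) * ‖D‖ * ‖k - f * k‖ := by
      have := D.le_opNorm (k - f * k)
      calc _ ≤ ‖D (k - f * k)‖ + ‖L‖ * ‖U‖ * ‖D (k - f * k)‖ :=
            (norm_sub_le _ _).trans (add_le_add le_rfl (le_opNorm₂ _ _ _))
        _ ≤ ‖D‖ * ‖k - f * k‖ + ‖L‖ * K1 * (‖D‖ * ‖k - f * k‖) := by gcongr
        _ = _ := by ring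
    have b3 : ‖L (k - k * U) (D f)‖ ≤ ‖L‖ * ‖k - k * U‖ * (‖D‖ * K) :=
      (le_opNorm₂ _ _ _).trans (by gcongr; exact (D.le_opNorm f).trans (by gcongr))
    have b4 : ‖L (f - U * f) (D k)‖ ≤ ‖L‖ * ‖f - U * f‖ * (‖D‖ * ‖k‖) :=
      (le_opNorm₂ _ _ _).trans (by gcongr; exact D.le_opNorm k)
    exact (norm_add_le _ _).trans (add_le_add ((norm_add_le _ _).trans
      (add_le_add ((norm_add_le _ _).trans (add_le_add b1 b2)) b3)) b4)
  refine ⟨‖D‖ + (C * ‖S.i‖ * (‖β‖ * K * K) + (1 + ‖L‖ * K1) * ‖D‖ * (1 + K) +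
    ‖L‖ * (1 + K1) * (‖D‖ * K) + ‖L‖ * ((1 + K1) * K) * ‖D‖), fun F ε hε => ?_⟩
  have hε4 : 0 < ε / 4 := by positivity
  obtain ⟨n0, hn0⟩ := ((eventually_all_finset F).2 fun k _ =>
    (show Tendsto (fun n => (1 + ‖L‖ * K1) * ‖D‖ * ‖k - e n * k‖) atTop (𝓝 0) by
      simpa using ((tendsto_const_nhds (x := k)).sub (hl k)).norm.const_mul
        ((1 + ‖L‖ * K1) * ‖D‖)).eventually (gt_mem_nhds hε4)).exists
  have hc : 0 < ‖β‖ * K * K + 1 := by positivity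
  obtain ⟨M, hM, h1, h2, h3, h4, h5⟩ := hC (F.image S.i) (ε / 4 / (‖β‖ * K * K + 1))
    (by positivity)
  obtain ⟨n, hn1, hn2⟩ := (h3.and ((eventually_all_finset F).2 fun k _ =>
    ((show Tendsto (fun n => ‖L‖ * ‖k - k * (M π (e n) (e n)).2‖ * (‖D‖ * K)) atTop (𝓝 0) by
      simpa using ((h4 k).norm.const_mul ‖L‖).mul_const (‖D‖ * K)).eventually
        (gt_mem_nhds hε4)).and
    ((show Tendsto (fun n => ‖L‖ * ‖e n0 - (M π (e n) (e n)).2 * e n0‖ * (‖D‖ * ‖k‖)) atTop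
      (𝓝 0) by simpa using ((h5 (e n0)).norm.const_mul ‖L‖).mul_const (‖D‖ * ‖k‖)).eventually
        (gt_mem_nhds hε4)))).exists
  obtain ⟨ξ, hξ⟩ := key M hM (e n) (e n0) (hK n) (hK n0) hn1
  refine ⟨ξ, fun k => ?_, fun k hk => (hξ k).trans_lt ?_⟩
  · change ‖(M π (e n) (e n)).2‖ ≤ K1 at hn1
    have h6 := hξ k
    set U := (M π (e n) (e n)).2
    have c1 : ‖k - e n0 * k‖ ≤ (1 + K) * ‖k‖ := by
      have := (norm_mul_le _ k).trans (mul_le_mul_of_nonneg_right (hK n0) (norm_nonneg k))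
      linarith [norm_sub_le k (e n0 * k)]
    have c2 : ‖k - k * U‖ ≤ (1 + K1) * ‖k‖ := by
      have := (norm_mul_le k U).trans (mul_le_mul_of_nonneg_left hn1 (norm_nonneg k))
      linarith [norm_sub_le k (k * U)]
    have c3 : ‖e n0 - U * e n0‖ ≤ (1 + K1) * K := by
      have := (norm_mul_le U (e n0)).trans (mul_le_mul hn1 (hK n0) (norm_nonneg _) hK1)
      linarith [norm_sub_le (e n0) (U * e n0), hK n0]
    have c4 := (h1 (S.i k)).trans (mul_le_mul_of_nonneg_left (S.i.le_opNorm k) hC0)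
    calc ‖L k ξ - R k ξ‖ = ‖D k - (D k - (L k ξ - R k ξ))‖ := by rw [sub_sub_cancel]
      _ ≤ ‖D‖ * ‖k‖ + (C * (‖S.i‖ * ‖k‖) * (‖β‖ * K * K) + (1 + ‖L‖ * K1) * ‖D‖ * ((1 + K) * ‖k‖) +
          ‖L‖ * ((1 + K1) * ‖k‖) * (‖D‖ * K) + ‖L‖ * ((1 + K1) * K) * (‖D‖ * ‖k‖)) :=
        (norm_sub_le _ _).trans (add_le_add (D.le_opNorm k) (h6.trans (by gcongr)))
      _ = _ := by ring
  · have h6 := h2 _ (Finset.mem_image_of_mem _ hk)
    rw [lt_div_iff₀ hc, mul_add, mul_one] at h6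
    linarith [hn0 k hk, (hn2 k hk).1, (hn2 k hk).2,
      norm_nonneg (M.comp (S.tL (X × J) (S.i k)) - M.comp (S.tR (X × J) (S.i k)))]

end Pool.Agent.P.MP_086137_an
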