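import Pool.Agent.P.MP_086137_an.ThreeC
import Pool.Agent.P.MP_086137_an.Defs

set_option autoImplicit false
set_option maxSynthPendingDepth 3
set_option linter.dupNamespace false

namespace Pool.Agent.P.MP_086137_an

open ContinuousLinearMap

theorem hyp_iff (A : Type) [NonUnitalNormedRing A] [NormedSpace ℂ A] :
    BddApproxContractible A ↔ Hyp0 A := by
  refine ⟨fun h X _ _ _ L R hL hR hLR D hD => h X (fun a x => L a x) (fun a x => R a x) D
    L.isBoundedBilinearMap R.isBoundedBilinearMap D.isBoundedLinearMap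
    ⟨fun a b x => congrArg (fun T : X →L[ℂ] X => T x) (hL a b),
      fun a b x => congrArg (fun T : X →L[ℂ] X => T x) (hR a b),
      fun a b x => congrArg (fun T : X →L[ℂ] X => T x) (hLR a b)⟩ hD,
    fun h X _ _ _ L R D hL hR hD hb hd => ?_⟩
  exact h X hL.toContinuousLinearMap hR.toContinuousLinearMap
    (fun a b => ContinuousLinearMap.ext fun x => hb.1 a b x)
    (fun a b => ContinuousLinearMap.ext fun x => hb.2.1 a b x)
    (fun a b => ContinuousLinearMap.ext fun x => hb.2.2 a b x) hD.toContinuousLinearMap hd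

variable {A : Type} [NonUnitalNormedRing A] [NormedSpace ℂ A] [IsScalarTower ℂ A A]
  [SMulCommClass ℂ A A]

theorem hyp_unit (h : Hyp0 A) : Hyp (UU A) := by
  classical
  let i : A →L[ℂ] UU A := (inc A).toContinuousLinearMap
  have hi : ∀ a, i a = inc A a := fun _ => rfl
  intro X _ _ _ L R hL1 hR1 hL hR hLR D hD
  obtain ⟨C, hC⟩ := h X (L.comp i) (R.comp i)
    (by intro a b; simp only [ContinuousLinearMap.comp_apply, hi, inc_mul, hL])
    (by intro a b; simp only [ContinuousLinearMap.comp_apply, hi, inc_mul, hR])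
    (by intro a b; simp only [ContinuousLinearMap.comp_apply, hi, hLR]) (D.comp i)
    (by intro a b; simp only [ContinuousLinearMap.comp_apply, hi, inc_mul, hD])
  have hD1 : D 1 = 0 := by
    have := hD 1 1
    rw [mul_one, hL1, hR1] at this
    simpa using this
  refine ⟨|C|, fun F ε hε => ?_⟩
  obtain ⟨ξ, h1, h2⟩ := hC (F.image fun x => (WithLp.ofLp x).snd) ε hε
  have e1 : ∀ x : UU A, L x ξ - R x ξ
      = L (inc A (WithLp.ofLp x).snd) ξ - R (inc A (WithLp.ofLp x).snd) ξ := by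
    intro x
    conv_lhs => rw [decomp x]
    simp only [map_add, map_smul, add_apply, smul_apply, hL1, hR1]
    abel
  have e2 : ∀ x : UU A, D x = D (inc A (WithLp.ofLp x).snd) := by
    intro x
    conv_lhs => rw [decomp x]
    simp only [map_add, map_smul, hD1, smul_zero, zero_add]
  refine ⟨ξ, fun x => ?_, fun x hx => ?_⟩
  · rw [e1]
    refine (h1 _).trans ?_
    rw [WithLp.unitization_norm_def]
    have := le_abs_self C
    have := abs_nonneg C
    nlinarith [norm_nonneg (WithLp.ofLp x).fst, norm_nonneg (WithLp.ofLp x).snd]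
  · rw [e1, e2]
    exact h2 _ (Finset.mem_image_of_mem _ hx)

/-- The scalar coordinate on the unitization. -/
noncomputable def fs (A : Type) [NonUnitalNormedRing A] [NormedSpace ℂ A] : UU A →L[ℂ] ℂ :=
  LinearMap.mkContinuous ⟨⟨fun x => (WithLp.ofLp x).fst, fun _ _ => rfl⟩, fun _ _ => rfl⟩ 1
    fun x => by
      rw [one_mul, WithLp.unitization_norm_def]
      exact le_add_of_nonneg_right (norm_nonneg _)

/-- The algebra coordinate on the unitization. -/
noncomputable def sn (A : Type) [NonUnitalNormedRing A] [NormedSpace ℂ A] : UU A →L[ℂ] A :=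
  LinearMap.mkContinuous ⟨⟨fun x => (WithLp.ofLp x).snd, fun _ _ => rfl⟩, fun _ _ => rfl⟩ 1
    fun x => by
      rw [one_mul, WithLp.unitization_norm_def]
      exact le_add_of_nonneg_left (norm_nonneg _)

theorem fs_one : fs A 1 = 1 := rfl

theorem sn_one : sn A 1 = 0 := rfl

theorem fs_inc (a : A) : fs A (inc A a) = 0 := rfl

theorem sn_inc (a : A) : sn A (inc A a) = a := rfl

theorem dec (x : UU A) : fs A x • (1 : UU A) + inc A (sn A x) = x := (decomp x).symm

theorem mul_dec (x y : UU A) : x * y = (fs A x * fs A y) • (1 : UU A) +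
    inc A (fs A x • sn A y + fs A y • sn A x + sn A x * sn A y) := by
  conv_lhs => rw [← dec x, ← dec y]
  simp only [add_mul, mul_add, smul_mul_assoc, mul_smul_comm, one_mul, mul_one, map_add, map_smul,
    inc_mul]
  module

theorem fs_mul (x y : UU A) : fs A (x * y) = fs A x * fs A y := by
  rw [mul_dec, map_add, map_smul, fs_one, fs_inc, smul_eq_mul, mul_one, add_zero]

theorem sn_mul (x y : UU A) :
    sn A (x * y) = fs A x • sn A y + fs A y • sn A x + sn A x * sn A y := by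
  rw [mul_dec, map_add, map_smul, sn_one, sn_inc, smul_zero, zero_add]

theorem hyp0_of_unit (h : Hyp (UU A)) : Hyp0 A := by
  classical
  intro X _ _ _ L R hL hR hLR D hD
  have hL' : ∀ a b x, L (a * b) x = L a (L b x) := fun a b x => by rw [hL]; rfl
  have hR' : ∀ a b x, R (a * b) x = R b (R a x) := fun a b x => by rw [hR]; rfl
  have hLR' : ∀ a b x, L a (R b x) = R b (L a x) := fun a b x =>
    congrArg (fun T : X →L[ℂ] X => T x) (hLR a b)
  let E : (A →L[ℂ] X →L[ℂ] X) → UU A →L[ℂ] X →L[ℂ] X := fun T =>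
    (fs A).smulRight (ContinuousLinearMap.id ℂ X) + T.comp (sn A)
  have hE : ∀ T a x, E T a x = fs A a • x + T (sn A a) x := fun _ _ _ => rfl
  obtain ⟨C, hC⟩ := h X (E L) (E R) (fun x => by simp [hE, fs_one, sn_one])
    (fun x => by simp [hE, fs_one, sn_one])
    (fun a b => ContinuousLinearMap.ext fun x => by
      simp only [comp_apply, hE, fs_mul, sn_mul, map_add, map_smul, add_apply, smul_apply, hL']
      module)
    (fun a b => ContinuousLinearMap.ext fun x => by
      simp only [comp_apply, hE, fs_mul, sn_mul, map_add, map_smul, add_apply, smul_apply, hR']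
      module)
    (fun a b => ContinuousLinearMap.ext fun x => by
      simp only [comp_apply, hE, map_add, map_smul, hLR']
      module) (D.comp (sn A))
    (fun a b => by
      simp only [comp_apply, hE, sn_mul, map_add, map_smul, hD]
      module)
  refine ⟨C, fun F ε hε => ?_⟩
  obtain ⟨ξ, h1, h2⟩ := hC (F.image (inc A)) ε hε
  refine ⟨ξ, fun a => ?_, fun a ha => ?_⟩
  · simpa [hE, fs_inc, sn_inc] using h1 (inc A a)
  · simpa [hE, fs_inc, sn_inc] using h2 _ (Finset.mem_image_of_mem _ ha)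

variable {B : Type} [NonUnitalNormedRing B] [NormedSpace ℂ B] [IsScalarTower ℂ B B]
  [SMulCommClass ℂ B B]

omit [IsScalarTower ℂ A A] [SMulCommClass ℂ A A] [IsScalarTower ℂ B B] [SMulCommClass ℂ B B] in
theorem hyp0_quot (h : Hyp0 A) (q : A →L[ℂ] B) (hq : ∀ x y, q (x * y) = q x * q y)
    (s : B →L[ℂ] A) (hs : ∀ b, q (s b) = b) : Hyp0 B := by
  classical
  intro X _ _ _ L R hL hR hLR D hD
  obtain ⟨C, hC⟩ := h X (L.comp q) (R.comp q) (fun a b => by simp only [comp_apply, hq, hL])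
    (fun a b => by simp only [comp_apply, hq, hR]) (fun a b => by simp only [comp_apply, hLR])
    (D.comp q) (fun a b => by simp only [comp_apply, hq, hD])
  refine ⟨|C| * ‖s‖, fun F ε hε => ?_⟩
  obtain ⟨ξ, h1, h2⟩ := hC (F.image s) ε hε
  refine ⟨ξ, fun b => ?_, fun b hb => ?_⟩
  · have := h1 (s b)
    simp only [comp_apply, hs] at this
    rw [mul_assoc]
    exact this.trans (mul_le_mul (le_abs_self C) (s.le_opNorm b) (norm_nonneg _) (abs_nonneg C))
  · simpa only [comp_apply, hs] using h2 _ (Finset.mem_image_of_mem _ hb)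

variable {J : Type} [NonUnitalNormedRing J] [NormedSpace ℂ J]

theorem exists_split [FiniteDimensional ℂ B] (h : Hyp0 B) (q : A →L[ℂ] B)
    (hq : ∀ x y, q (x * y) = q x * q y) (s : B →L[ℂ] A) (hs : ∀ b, q (s b) = b)
    (ι : J →ₗᵢ[ℂ] A) (hι : ∀ x y, ι (x * y) = ι x * ι y) (hJ : Function.Exact ι q) :
    Nonempty (Split (UU A) J) := by
  have hqι : ∀ y, q (ι y) = 0 := hJ.apply_apply_eq_zero
  have hf : FiniteDimensional ℂ (UU B) := by
    refine Module.Finite.of_surjective (LinearMap.coprod (LinearMap.toSpanSingleton ℂ (UU B) 1)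
      (inc B).toLinearMap) fun x => ⟨(fs B x, sn B x), dec x⟩
  obtain ⟨d, ⟨φ⟩⟩ := exists_frame (⊥ : Submodule ℂ (UU B))
    (fun a x hx => by simp [(Submodule.mem_bot ℂ).1 hx]) isClosed_singleton inferInstance
  obtain ⟨c, h1, h2⟩ := φ.exists_c (hyp_unit h) isClosed_singleton
  rw [Submodule.mem_bot, sub_eq_zero] at h1
  let i : J →L[ℂ] UU A := (inc A).toContinuousLinearMap.comp ι.toContinuousLinearMap
  have hi : ∀ x : J, i x = inc A (ι x) := fun _ => rfl
  let P : UU A →L[ℂ] J := (ι.equivRange.symm.toContinuousLinearEquiv : _ →L[ℂ] J).comp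
    ((sn A - s.comp (q.comp (sn A))).codRestrict (LinearMap.range ι.toLinearMap) fun x =>
      (hJ _).1 (by simp [hs]))
  have hP : ∀ x, ι (P x) = sn A x - s (q (sn A x)) := fun x =>
    congrArg Subtype.val (ι.equivRange.apply_symm_apply _)
  let σ : UU B →ₗ[ℂ] UU A := (fs B : UU B →ₗ[ℂ] ℂ).smulRight 1 +
    (inc A).toLinearMap.comp ((s.comp (sn B) : UU B →L[ℂ] A) : UU B →ₗ[ℂ] A)
  have hσ : ∀ x, σ x = fs B x • (1 : UU A) + inc A (s (sn B x)) := fun _ => rfl
  let Q : UU A →ₗ[ℂ] UU B := (fs A : UU A →ₗ[ℂ] ℂ).smulRight 1 +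
    (inc B).toLinearMap.comp ((q.comp (sn A) : UU A →L[ℂ] B) : UU A →ₗ[ℂ] B)
  have hQ : ∀ x, Q x = fs A x • (1 : UU B) + inc B (q (sn A x)) := fun _ => rfl
  have Q1 : ∀ x, fs B (Q x) = fs A x := fun x => by simp [hQ, fs_one, fs_inc]
  have Q2 : ∀ x, sn B (Q x) = q (sn A x) := fun x => by simp [hQ, sn_one, sn_inc]
  have Qm : ∀ x y, Q (x * y) = Q x * Q y := fun x y => by
    rw [mul_dec (Q x), hQ (x * y), fs_mul, sn_mul]
    simp only [Q1, Q2, map_add, map_smul, hq]
  have Qσ : ∀ x, Q (σ x) = x := fun x => by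
    rw [hQ, hσ]
    simp [fs_one, fs_inc, sn_one, sn_inc, hs, dec]
  have σQ : ∀ x, i (P x) + σ (Q x) = x := fun x => by
    rw [hi, hP, hσ, Q1, Q2, map_sub]
    conv_rhs => rw [← dec x]
    abel
  have Qi : ∀ y : J, Q (i y) = 0 := fun y => by
    simp [hQ, hi, fs_inc, sn_inc, hqι]
  have hker : ∀ x, Q x = 0 → i (P x) = x := fun x hx => by simpa [hx] using σQ x
  refine ⟨⟨i, P, fun x y => by rw [hi, hι, inc_mul, hi, hi], fun x => ι.injective ?_,
    fun a x => hker _ (by rw [Qm, Qi, mul_zero]), fun a x => hker _ (by rw [Qm, Qi, zero_mul]),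
    d, fun k => σ (φ.u k), fun k => σ (c k), P (1 - ∑ k, σ (φ.u k) * σ (c k)), ?_,
    fun β b1 b2 a => ?_⟩⟩
  · rw [hP, hi, sn_inc, hqι, map_zero, sub_zero]
  · rw [hker, add_sub_cancel]
    simp only [map_sub, map_sum, Qm, Qσ, h1]
    simp [hQ, fs_one, sn_one]
  · have h3 := h2 (β.compl₁₂ σ σ) (fun y hy x => by simp [(Submodule.mem_bot ℂ).1 hy])
      (fun y hy x => by simp [(Submodule.mem_bot ℂ).1 hy]) (Q a)
    have h4 : ∀ x y, β x y = β (σ (Q x)) (σ (Q y)) := fun x y => by
      conv_lhs => rw [← σQ x, ← σQ y]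
      simp only [map_add, LinearMap.add_apply, b1, b2, zero_add]
    simp only [LinearMap.compl₁₂_apply] at h3
    rw [Finset.sum_congr rfl fun k _ => h4 _ _, Finset.sum_congr rfl fun k _ => h4 (σ (φ.u k)) _]
    simpa only [Qm, Qσ] using h3

theorem three_space [IsScalarTower ℂ J J] [SMulCommClass ℂ J J] [CompleteSpace J]
    [CompleteSpace A] [FiniteDimensional ℂ B] (ι : J →ₙₐ[ℂ] A) (hι : Isometry ι)
    (q : A →ₙₐ[ℂ] B) (hc : Continuous q) (hs : Function.Surjective q)
    (hJ : Function.Exact ι q) : Hyp0 A ↔ Hyp0 J ∧ Hyp0 B := by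
  classical
  let q' : A →L[ℂ] B := ⟨(q : A →ₗ[ℂ] B), hc⟩
  let ι' : J →ₗᵢ[ℂ] A := ⟨(ι : J →ₗ[ℂ] A), hι.norm_map_of_map_zero (map_zero ι)⟩
  obtain ⟨s, hs'⟩ := (q : A →ₗ[ℂ] B).exists_rightInverse_of_surjective
    (LinearMap.range_eq_top.2 hs)
  let s' : B →L[ℂ] A := ⟨s, s.continuous_of_finiteDimensional⟩
  have hq : ∀ x y, q' (x * y) = q' x * q' y := map_mul q
  have hqs : ∀ b, q' (s' b) = b := fun b => LinearMap.congr_fun hs' b
  refine ⟨fun h => ?_, fun h => ?_⟩
  · have hB := hyp0_quot h q' hq s' hqs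
    obtain ⟨S⟩ := exists_split hB q' hq s' hqs ι' (map_mul ι) hJ
    obtain ⟨K, hK⟩ := main_nonunital h (LinearMap.ker (q : A →ₗ[ℂ] B)) (fun a x hx =>
      ⟨show q (a * x) = 0 by rw [map_mul, show q x = 0 from hx, mul_zero],
        show q (x * a) = 0 by rw [map_mul, show q x = 0 from hx, zero_mul]⟩)
      (isClosed_singleton.preimage hc) (LinearMap.quotKerEquivRange _).symm.finiteDimensional
    refine ⟨S.down (hyp_unit h) (K := K) fun F ε hε => ?_, hB⟩
    obtain ⟨_, he, h1, h2⟩ := hK (F.image ι) (fun x hx => by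
      obtain ⟨y, -, rfl⟩ := Finset.mem_image.1 hx
      exact hJ.apply_apply_eq_zero y) ε hε
    obtain ⟨e, rfl⟩ := (hJ _).1 he
    have hn : ∀ x, ‖ι x‖ = ‖x‖ := ι'.norm_map
    refine ⟨e, (hn e).ge.trans h1, fun x hx => ?_⟩
    simpa only [← map_mul, ← map_sub, hn] using h2 _ (Finset.mem_image_of_mem _ hx)
  · obtain ⟨S⟩ := exists_split h.2 q' hq s' hqs ι' (map_mul ι) hJ
    exact hyp0_of_unit (S.up h.1)

end Pool.Agent.P.MP_086137_an
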